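import Pool.Agent.Helper21.WD.Stmts

/-!
# T13, row BND: the middle piece is small if there are no elements of degree two, and none which
live on the middle piece
-/

set_option autoImplicit false

open Matrix

namespace MT

namespace BND92

variable {K : Type} [Field K] {n : ℕ}

theorem exists_inj [Infinite K] {M : Type} [AddCommGroup M] [Module K M] [FiniteDimensional K M]
    (g : M →ₗ[K] M) : ∃ t : K, t ≠ 0 ∧ ∀ v : M, v + t • g v = 0 → v = 0 := by
  have h1 : ({μ : K | Module.End.HasEigenvalue g μ} ∪ {0}).Finite :=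
    (Module.End.finite_hasEigenvalue g).union (Set.finite_singleton 0)
  obtain ⟨μ, hμ⟩ := h1.exists_notMem
  rw [Set.mem_union, not_or] at hμ
  have h0 : μ ≠ 0 := hμ.2
  refine ⟨-μ⁻¹, neg_ne_zero.2 (inv_ne_zero h0), fun v hv => ?_⟩
  by_contra hc
  apply hμ.1
  refine Module.End.hasEigenvalue_of_hasEigenvector (x := v) ⟨?_, hc⟩
  rw [Module.End.mem_eigenspace_iff]
  have h2 : v = μ⁻¹ • g v := by
    rw [neg_smul, ← sub_eq_add_neg, sub_eq_zero] at hv
    exact hv
  have h3 := congrArg (fun w => μ • w) h2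
  simp only [smul_smul, mul_inv_cancel₀ h0, one_smul] at h3
  exact h3.symm

/-- matrices of maximal rank in a pencil -/
theorem pencil [Infinite K] {V W : Type} [AddCommGroup V] [Module K V] [FiniteDimensional K V]
    [AddCommGroup W] [Module K W] [FiniteDimensional K W] (A A' : V →ₗ[K] W)
    (h : ∀ t : K, Module.finrank K (LinearMap.range (A + t • A')) ≤
      Module.finrank K (LinearMap.range A)) (u : V) (hu : A u = 0) :
    A' u ∈ LinearMap.range A := by
  by_contra hc
  obtain ⟨σ, hσ⟩ := LinearMap.exists_rightInverse_of_surjective A.rangeRestrict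
    A.range_rangeRestrict
  have hσ' : ∀ w : LinearMap.range A, A (σ w) = (w : W) := fun w => by
    have := LinearMap.congr_fun hσ w
    have h2 := congrArg Subtype.val this
    simpa using h2
  let Φ : (LinearMap.range A × K) →ₗ[K] W :=
    (LinearMap.range A).subtype.comp (LinearMap.fst K _ K) +
      (LinearMap.toSpanSingleton K W (A' u)).comp (LinearMap.snd K _ K)
  let Ψ : (LinearMap.range A × K) →ₗ[K] W := (A'.comp σ).comp (LinearMap.fst K _ K)
  have hΦ : ∀ p : LinearMap.range A × K, Φ p = (p.1 : W) + p.2 • A' u := fun p => by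
    simp [Φ]
  have hΨ : ∀ p : LinearMap.range A × K, Ψ p = A' (σ p.1) := fun p => by
    simp [Ψ]
  have hinj : LinearMap.ker Φ = ⊥ := by
    rw [LinearMap.ker_eq_bot']
    rintro ⟨w, c⟩ hp
    rw [hΦ] at hp
    simp only at hp
    have hc0 : c = 0 := by
      by_contra hc0
      apply hc
      have : A' u = -(c⁻¹) • (w : W) := by
        have h2 : c • A' u = -(w : W) := by
          rw [eq_neg_iff_add_eq_zero, add_comm]
          exact hp
        calc A' u = c⁻¹ • (c • A' u) := by rw [smul_smul, inv_mul_cancel₀ hc0, one_smul]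
          _ = -(c⁻¹) • (w : W) := by rw [h2, smul_neg, neg_smul]
      rw [this]
      exact Submodule.smul_mem _ _ w.2
    rw [hc0, zero_smul, add_zero] at hp
    ext
    · simpa using hp
    · exact hc0
  obtain ⟨Q, hQ⟩ := Φ.exists_leftInverse_of_injective hinj
  obtain ⟨t, ht, hinj'⟩ := exists_inj (Q.comp Ψ)
  have hQ' : ∀ p, Q (Φ p) = p := fun p => LinearMap.congr_fun hQ p
  let Θ : (LinearMap.range A × K) →ₗ[K] LinearMap.range (A + t • A') :=
    (Φ + t • Ψ).codRestrict (LinearMap.range (A + t • A')) (by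
      intro p
      refine ⟨σ p.1 + (t⁻¹ * p.2) • u, ?_⟩
      rw [LinearMap.add_apply, LinearMap.add_apply, LinearMap.smul_apply, LinearMap.smul_apply,
        hΦ, hΨ, map_add, map_add, map_smul, map_smul, hu, hσ', smul_zero, add_zero, smul_add,
        smul_smul, ← mul_assoc, mul_inv_cancel₀ ht, one_mul]
      abel)
  have hΘ : Function.Injective Θ := by
    rw [← LinearMap.ker_eq_bot, LinearMap.ker_eq_bot']
    intro p hp
    have h1 : Φ p + t • Ψ p = 0 := congrArg Subtype.val hp
    have h2 := congrArg Q h1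
    rw [map_add, map_smul, hQ', map_zero] at h2
    exact hinj' p h2
  have h1 := LinearMap.finrank_le_finrank_of_injective hΘ
  rw [Module.finrank_prod, Module.finrank_self] at h1
  have h2 := h t
  omega

/-- homogeneous of degree `x` -/
def Hm (s : Fin n → ℤ) (x : ℤ) (A : Matrix (Fin n) (Fin n) K) : Prop :=
  ∀ i j, A i j ≠ 0 → s i - s j = x

theorem hm_iff {s : Fin n → ℤ} {x : ℤ} {A : Matrix (Fin n) (Fin n) K} :
    cmp s x A = A ↔ Hm s x A := by
  constructor
  · intro h i j hij
    by_contra hc
    apply hij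
    rw [← h]
    simp [cmp, hc]
  · intro h
    ext i j
    by_cases hij : A i j = 0
    · simp [cmp, hij]
    · simp [cmp, h i j hij]

theorem hm_cmp (s : Fin n → ℤ) (x : ℤ) (A : Matrix (Fin n) (Fin n) K) : Hm s x (cmp s x A) := by
  intro i j hij
  by_contra hc
  exact hij (by simp [cmp, hc])

theorem Hm.mul {s : Fin n → ℤ} {x y : ℤ} {A B : Matrix (Fin n) (Fin n) K} (hA : Hm s x A)
    (hB : Hm s y B) : Hm s (x + y) (A * B) := by
  intro i j hij
  rw [Matrix.mul_apply] at hij
  obtain ⟨k, _, hk⟩ := Finset.exists_ne_zero_of_sum_ne_zero hij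
  have h1 := hA i k (left_ne_zero_of_mul hk)
  have h2 := hB k j (right_ne_zero_of_mul hk)
  omega

theorem Hm.sub {s : Fin n → ℤ} {x : ℤ} {A B : Matrix (Fin n) (Fin n) K} (hA : Hm s x A)
    (hB : Hm s x B) : Hm s x (A - B) := by
  intro i j hij
  by_cases h : A i j = 0
  · by_cases h' : B i j = 0
    · exact absurd (by simp [h, h']) hij
    · exact hB i j h'
  · exact hA i j h

theorem Hm.add {s : Fin n → ℤ} {x : ℤ} {A B : Matrix (Fin n) (Fin n) K} (hA : Hm s x A)
    (hB : Hm s x B) : Hm s x (A + B) := by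
  intro i j hij
  by_cases h : A i j = 0
  · by_cases h' : B i j = 0
    · exact absurd (by simp [h, h']) hij
    · exact hB i j h'
  · exact hA i j h

theorem Hm.smul {s : Fin n → ℤ} {x : ℤ} {A : Matrix (Fin n) (Fin n) K} (hA : Hm s x A) (c : K) :
    Hm s x (c • A) := by
  intro i j hij
  apply hA i j
  intro h
  exact hij (by simp [h])

theorem Hm.brk {s : Fin n → ℤ} {x y z : ℤ} {A B : Matrix (Fin n) (Fin n) K} (hA : Hm s x A)
    (hB : Hm s y B) (hz : x + y = z) : Hm s z (A * B - B * A) := by
  have h1 := hA.mul hB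
  have h2 := hB.mul hA
  rw [hz] at h1
  rw [add_comm, hz] at h2
  exact h1.sub h2

theorem Hm.zero_of {s : Fin n → ℤ} (hs : ∀ j, |s j| ≤ 1) {x : ℤ} {A : Matrix (Fin n) (Fin n) K}
    (hA : Hm s x A) (hx : 2 < |x|) : A = 0 := by
  ext i j
  by_contra hc
  have h1 := hA i j hc
  have h2 := abs_le.1 (hs i)
  have h3 := abs_le.1 (hs j)
  rw [← h1] at hx
  have : |s i - s j| ≤ 2 := abs_le.2 ⟨by omega, by omega⟩
  omega

/-- the homogeneous elements of degree `x` -/
def gr (s : Fin n → ℤ) (x : ℤ) (a : Submodule K (Matrix (Fin n) (Fin n) K)) :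
    Submodule K (Matrix (Fin n) (Fin n) K) where
  carrier := {A | A ∈ a ∧ Hm s x A}
  add_mem' := fun hA hB => ⟨a.add_mem hA.1 hB.1, hA.2.add hB.2⟩
  zero_mem' := ⟨a.zero_mem, fun _ _ h => absurd rfl h⟩
  smul_mem' := fun c _ hA => ⟨a.smul_mem c hA.1, hA.2.smul c⟩

theorem mem_gr {s : Fin n → ℤ} {x : ℤ} {a : Submodule K (Matrix (Fin n) (Fin n) K)}
    {A : Matrix (Fin n) (Fin n) K} : A ∈ gr s x a ↔ A ∈ a ∧ Hm s x A := Iff.rfl

/-- the trace form pairs degree `x` with degree `-x` -/
theorem trace_cmp (s : Fin n → ℤ) (x : ℤ) (A B : Matrix (Fin n) (Fin n) K) (hA : Hm s x A) :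
    (A * B).trace = (A * cmp s (-x) B).trace := by
  simp only [Matrix.trace, Matrix.diag_apply, Matrix.mul_apply]
  refine Finset.sum_congr rfl fun i _ => Finset.sum_congr rfl fun j _ => ?_
  by_cases h : A i j = 0
  · rw [h, zero_mul, zero_mul]
  · have h1 := hA i j h
    have h2 : s j - s i = -x := by omega
    simp [cmp, h2]

section main

variable [CharZero K] {s : Fin n → ℤ} {a : Submodule K (Matrix (Fin n) (Fin n) K)}

theorem nil3 (hs : ∀ j, |s j| ≤ 1) {x y : Matrix (Fin n) (Fin n) K} (hx : Hm s 1 x)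
    (hy : Hm s (-1) y) (h : (2 : K) • (y * x * y) = y * y * x + x * (y * y)) :
    (x * y).trace = 0 := by
  have hy3 : y * y * y = 0 := (((hy.mul hy).mul hy).zero_of hs (by norm_num))
  have e1 : (2 : K) • (y * y * x * y) = y * x * (y * y) := by
    have := congrArg (fun z => y * z) h
    simp only [Matrix.mul_smul, Matrix.mul_add] at this
    rw [← Matrix.mul_assoc y (y * y), ← Matrix.mul_assoc y y y, hy3, Matrix.zero_mul, zero_add]
      at this
    rw [← Matrix.mul_assoc y (y * x) y, ← Matrix.mul_assoc y y x] at this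
    rw [this, Matrix.mul_assoc]
  have e2 : (2 : K) • (y * x * (y * y)) = y * y * x * y := by
    have := congrArg (fun z => z * y) h
    simp only [Matrix.smul_mul, Matrix.add_mul] at this
    rw [Matrix.mul_assoc x (y * y) y, hy3, Matrix.mul_zero, add_zero] at this
    rw [← this, ← Matrix.mul_assoc (y * x) y y]
  have e3 : y * x * (y * y) = 0 := by
    rw [← e1, smul_smul] at e2
    have h3 : ((3 : K)) • (y * y * x * y) = 0 := by
      have : ((3 : K)) • (y * y * x * y) = (2 * 2 : K) • (y * y * x * y) - y * y * x * y := by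
        rw [eq_sub_iff_add_eq]
        nth_rewrite 2 [← one_smul K (y * y * x * y)]
        rw [← add_smul]
        norm_num
      rw [this, e2, sub_self]
    have h4 : y * y * x * y = 0 := (smul_eq_zero.1 h3).resolve_left (by norm_num)
    rw [← e1, h4, smul_zero]
  have e4 : y * y * x * y = 0 := by rw [← e2, e3, smul_zero]
  -- the two forms of the cube
  have c1 : (2 : K) • (x * y * (x * y) * (x * y)) = x * (y * y) * (x * x * y) := by
    have : x * y * (x * y) * (x * y) = x * (y * x * y) * (x * y) := by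
      simp only [Matrix.mul_assoc]
    rw [this, ← Matrix.smul_mul, ← Matrix.mul_smul, h, Matrix.mul_add, Matrix.add_mul]
    have h5 : x * (x * (y * y)) * (x * y) = x * (x * (y * y * x * y)) := by
      simp only [Matrix.mul_assoc]
    rw [h5, e4, Matrix.mul_zero, Matrix.mul_zero, add_zero]
    simp only [Matrix.mul_assoc]
  have c2 : (2 : K) • (x * y * (x * y) * (x * y)) = x * y * (x * x) * (y * y) := by
    have : x * y * (x * y) * (x * y) = x * y * x * (y * x * y) := by
      simp only [Matrix.mul_assoc]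
    rw [this, ← Matrix.mul_smul, h, Matrix.mul_add]
    have h5 : x * y * x * (y * y * x) = x * (y * x * (y * y)) * x := by
      simp only [Matrix.mul_assoc]
    rw [h5, e3, Matrix.mul_zero, Matrix.zero_mul, zero_add]
    simp only [Matrix.mul_assoc]
  have c3 : (x * y) ^ 3 = 0 := by
    have h6 : (2 : K) • (x * y) ^ 3 = 0 := by
      rw [pow_three', ]
      ext i j
      by_contra hc
      rw [Matrix.zero_apply] at hc
      have g1 := hc
      rw [c1] at g1
      rw [Matrix.mul_apply] at g1
      obtain ⟨k, _, hk⟩ := Finset.exists_ne_zero_of_sum_ne_zero g1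
      have g2 := right_ne_zero_of_mul hk
      rw [Matrix.mul_apply] at g2
      obtain ⟨m, _, hm⟩ := Finset.exists_ne_zero_of_sum_ne_zero g2
      have g3 := (hx.mul hx) k m (left_ne_zero_of_mul hm)
      have g4 := hy m j (right_ne_zero_of_mul hm)
      have g5 := hc
      rw [c2, Matrix.mul_apply] at g5
      obtain ⟨k', _, hk'⟩ := Finset.exists_ne_zero_of_sum_ne_zero g5
      have g6 := (hy.mul hy) k' j (right_ne_zero_of_mul hk')
      have b1 := abs_le.1 (hs k)
      have b2 := abs_le.1 (hs m)
      have b3 := abs_le.1 (hs j)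
      have b4 := abs_le.1 (hs k')
      omega
    exact (smul_eq_zero.1 h6).resolve_left (by norm_num)
  exact (Matrix.isNilpotent_trace_of_isNilpotent ⟨3, c3⟩).eq_zero

/-- the main claim -/
theorem exists_reg [IsAlgClosed K] (hTRC : ST_TRC) {ε : K} {ψ : Matrix (Fin n) (Fin n) K}
    (ha : GrD ε ψ s a) (hs : ∀ j, |s j| ≤ 1) (h2 : ∀ z ∈ a, cmp s 2 z = z → z = 0) :
    ∃ x ∈ gr s 1 a, ∀ y ∈ gr s (-1) a, x * y - y * x = 0 → y = 0 := by
  have hTr : ∀ (δ : ℤ) (x : Matrix (Fin n) (Fin n) K), x ∈ a → Hm s δ x →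
      (∀ y ∈ a, Hm s (-δ) y → (x * y).trace = 0) → x = 0 := by
    intro δ x hx hδ h
    refine hTRC K n ψ a ha.unit ha.brk ha.irr ha.iso x hx fun y hy => ?_
    rw [trace_cmp s δ x y hδ]
    exact h _ (ha.comp y hy _) (hm_cmp s _ y)
  have hBB : ∀ x ∈ gr s 1 a, ∀ x' ∈ gr s 1 a, x * x' - x' * x = 0 := by
    intro x hx x' hx'
    exact h2 _ (ha.brk x hx.1 x' hx'.1) (hm_iff.2 (hx.2.brk hx'.2 (by norm_num)))
  let L : Matrix (Fin n) (Fin n) K → (gr s (-1) a) →ₗ[K] Matrix (Fin n) (Fin n) K := fun x =>
    { toFun := fun y => x * (y : Matrix (Fin n) (Fin n) K) - y * x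
      map_add' := by
        intro y y'
        simp only [Submodule.coe_add, Matrix.mul_add, Matrix.add_mul]
        abel
      map_smul' := by
        intro c y
        simp only [Submodule.coe_smul, Matrix.mul_smul, Matrix.smul_mul, RingHom.id_apply,
          smul_sub] }
  have hL : ∀ x x' (t : K), L (x + t • x') = L x + t • L x' := by
    intro x x' t
    ext1 y
    simp only [L, LinearMap.coe_mk, AddHom.coe_mk, LinearMap.add_apply, LinearMap.smul_apply,
      Matrix.add_mul, Matrix.mul_add, Matrix.smul_mul, Matrix.mul_smul, smul_sub]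
    abel
  obtain ⟨r, hr1, hr2⟩ : ∃ r, (∃ x ∈ gr s 1 a, Module.finrank K (LinearMap.range (L x)) = r) ∧
      ∀ x ∈ gr s 1 a, Module.finrank K (LinearMap.range (L x)) ≤ r := by
    let S : Set ℕ := {r | ∃ x ∈ gr s 1 a, Module.finrank K (LinearMap.range (L x)) = r}
    have hS : S.Nonempty := ⟨_, 0, (gr s 1 a).zero_mem, rfl⟩
    have hb : BddAbove S := by
      refine ⟨Module.finrank K (Matrix (Fin n) (Fin n) K), ?_⟩
      rintro _ ⟨x, _, rfl⟩
      exact Submodule.finrank_le _
    refine ⟨sSup S, Nat.sSup_mem hS hb, fun x hx => le_csSup hb ⟨x, hx, rfl⟩⟩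
  obtain ⟨x, hx, hxr⟩ := hr1
  refine ⟨x, hx, fun y hy hxy => ?_⟩
  have hxy' : x * y = y * x := sub_eq_zero.1 hxy
  have hi : ∀ x' ∈ gr s 1 a, ∃ y' ∈ gr s (-1) a, x' * y - y * x' = x * y' - y' * x := by
    intro x' hx'
    have := pencil (L x) (L x') (fun t => by
      rw [← hL, hxr]
      exact hr2 _ ((gr s 1 a).add_mem hx ((gr s 1 a).smul_mem t hx'))) ⟨y, hy⟩ hxy
    obtain ⟨y', hy'⟩ := this
    exact ⟨y'.1, y'.2, hy'.symm⟩
  have hii : ∀ z ∈ a, Hm s 0 z → z * x = x * z → y * z - z * y = 0 := by
    intro z hz hz0 hzx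
    refine hTr (-1) _ (ha.brk y hy.1 z hz) (hy.2.brk hz0 (by norm_num)) fun x' hx'a hx' => ?_
    rw [neg_neg] at hx'
    obtain ⟨y', hy', h3⟩ := hi x' ⟨hx'a, hx'⟩
    have t1 : ((y * z - z * y) * x').trace = ((x' * y - y * x') * z).trace := by
      rw [sub_mul, sub_mul, Matrix.trace_sub, Matrix.trace_sub, Matrix.mul_assoc x' y z,
        Matrix.trace_mul_comm x', Matrix.mul_assoc y x' z, Matrix.trace_mul_comm y,
        Matrix.mul_assoc x' z y, Matrix.trace_mul_comm x']
    have t2 : ((x * y' - y' * x) * z).trace = (y' * (z * x - x * z)).trace := by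
      rw [sub_mul, mul_sub, Matrix.trace_sub, Matrix.trace_sub, Matrix.mul_assoc x y' z,
        Matrix.trace_mul_comm x, ← Matrix.mul_assoc y' z x, Matrix.mul_assoc y' x z]
    rw [t1, h3, t2, hzx, sub_self, Matrix.mul_zero, Matrix.trace_zero]
  refine hTr (-1) y hy.1 hy.2 fun x' hx'a hx' => ?_
  rw [neg_neg] at hx'
  rw [Matrix.trace_mul_comm]
  have hxx : x * x' = x' * x := sub_eq_zero.1 (hBB x hx x' ⟨hx'a, hx'⟩)
  have hz : (x' * y - y * x') * x = x * (x' * y - y * x') := by
    rw [sub_mul, mul_sub, Matrix.mul_assoc x' y x, ← hxy', ← Matrix.mul_assoc x' x y, ← hxx,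
      Matrix.mul_assoc y x' x, ← hxx, ← Matrix.mul_assoc y x x', ← hxy', Matrix.mul_assoc x x' y,
      Matrix.mul_assoc x y x']
  have h5 := hii _ (ha.brk x' hx'a y hy.1) (hx'.brk hy.2 (by norm_num)) hz
  refine nil3 hs hx' hy.2 ?_
  rw [mul_sub, sub_mul] at h5
  have h6 : y * (x' * y) = y * x' * y := (Matrix.mul_assoc _ _ _).symm
  have h7 : y * (y * x') = y * y * x' := (Matrix.mul_assoc _ _ _).symm
  have h8 : x' * y * y = x' * (y * y) := Matrix.mul_assoc _ _ _
  rw [h6, h7, h8] at h5
  rw [two_smul]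
  have h9 : y * x' * y + y * x' * y - (y * y * x' + x' * (y * y)) =
    y * x' * y - y * y * x' - (x' * (y * y) - y * x' * y) := by abel
  rw [← sub_eq_zero, h9, h5]

end main

end BND92

open BND92

theorem st_BND (hTRC : ST_TRC) (hSPB : ST_SPB) : ST_BND := by
  intro K _ _ _ n ε ψ s a ha hs h1 h00 h2
  obtain ⟨x, hx, hreg⟩ := exists_reg hTRC ha hs h2
  -- elements of degree zero are determined by their top block
  have hdet : ∀ z ∈ a, Hm s 0 z → (∀ i j, s i = 1 → s j = 1 → z i j = 0) → z = 0 := by
    intro z hz hz0 h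
    have hrow : ∀ i k, s i = 1 → z i k = 0 := by
      intro i k hi
      by_contra hc
      have h3 := hz0 i k hc
      exact hc (h i k hi (by omega))
    refine h00 z hz fun i j hij => ?_
    have h3 := hz0 i j hij
    have h4 : s j ≠ 1 := by
      intro h5
      exact hij (hrow i j (by omega))
    have h5 : s j ≠ -1 := by
      intro h5
      apply hij
      have h6 : ∀ k, (ψ * z) k j = 0 := by
        intro k
        have h7 := congrFun (congrFun (ha.iso z hz) k) j
        rw [Matrix.add_apply, Matrix.zero_apply] at h7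
        have h8 : (z.transpose * ψ) k j = 0 := by
          rw [Matrix.mul_apply]
          refine Finset.sum_eq_zero fun i' _ => ?_
          by_cases h9 : ψ i' j = 0
          · rw [h9, mul_zero]
          · have := ha.grad i' j h9
            rw [Matrix.transpose_apply, hrow i' k (by omega), zero_mul]
        rw [h8, zero_add] at h7
        exact h7
      have h7 : z = ψ⁻¹ * (ψ * z) := by
        rw [← Matrix.mul_assoc, Matrix.nonsing_inv_mul ψ (isUnit_iff_ne_zero.2 ha.unit),
          Matrix.one_mul]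
      rw [h7, Matrix.mul_apply]
      refine Finset.sum_eq_zero fun k _ => ?_
      rw [h6, mul_zero]
    have h6 := abs_le.1 (hs j)
    constructor <;> omega
  -- dim a_{-1} ≤ α ^ 2
  have hd1 : Module.finrank K (gr s (-1) a) ≤
      (Finset.univ.filter fun j => s j = 1).card * (Finset.univ.filter fun j => s j = 1).card := by
    let f : (gr s (-1) a) →ₗ[K] Matrix {j // s j = 1} {j // s j = 1} K :=
      { toFun := fun y => (x * (y : Matrix (Fin n) (Fin n) K) - y * x).submatrix Subtype.val
          Subtype.val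
        map_add' := by
          intro y y'
          ext i j
          simp only [Submodule.coe_add, Matrix.mul_add, Matrix.add_mul, Matrix.submatrix_apply,
            Matrix.sub_apply, Matrix.add_apply]
          ring
        map_smul' := by
          intro c y
          ext i j
          simp only [Submodule.coe_smul, Matrix.mul_smul, Matrix.smul_mul, RingHom.id_apply,
            Matrix.submatrix_apply, Matrix.sub_apply, Matrix.smul_apply, smul_eq_mul]
          ring }
    have hf : Function.Injective f := by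
      rw [← LinearMap.ker_eq_bot, LinearMap.ker_eq_bot']
      rintro ⟨y, hy⟩ hfy
      have h3 : x * y - y * x = 0 := by
        refine hdet _ (ha.brk x hx.1 y hy.1) (hx.2.brk hy.2 (by norm_num)) fun i j hi hj => ?_
        exact congrFun (congrFun hfy ⟨i, hi⟩) ⟨j, hj⟩
      have h4 := hreg y hy h3
      subst h4
      rfl
    have h3 := LinearMap.finrank_le_finrank_of_injective hf
    rwa [Module.finrank_matrix, Module.finrank_self, mul_one, Fintype.card_subtype] at h3
  -- the middle piece
  let g : ({j // s j = 1} → gr s (-1) a) →ₗ[K] ({j // s j = 0} → K) :=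
    { toFun := fun Y i => ∑ j : {j // s j = 1}, (Y j : Matrix (Fin n) (Fin n) K) i.1 j.1
      map_add' := by
        intro Y Y'
        ext i
        simp only [Pi.add_apply, Submodule.coe_add, Matrix.add_apply, Finset.sum_add_distrib]
      map_smul' := by
        intro c Y
        ext i
        simp only [Pi.smul_apply, Submodule.coe_smul, Matrix.smul_apply, smul_eq_mul,
          Finset.mul_sum, RingHom.id_apply] }
  have hg : Function.Surjective g := by
    intro v
    let v' : Fin n → K := fun j => if h : s j = 0 then v ⟨j, h⟩ else 0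
    have hv' : ∀ j, v' j ≠ 0 → s j = 0 := by
      intro j hj
      by_contra hc
      exact hj (by simp [v', hc])
    have hsp := (hSPB K n ε ψ s a ha hs h1).1 v' hv'
    have key : ∀ w ∈ Submodule.span K {u | ∃ A ∈ a, cmp s (-1) A = A ∧ ∃ x : Fin n → K,
        (∀ j, x j ≠ 0 → s j = 1) ∧ u = A.mulVec x},
        (fun i : {j // s j = 0} => w i.1) ∈ LinearMap.range g := by
      intro w hw
      induction hw using Submodule.span_induction with
      | mem u hu =>
        obtain ⟨A, hA, hA', p, hp, rfl⟩ := hu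
        have hAm : A ∈ gr s (-1) a := ⟨hA, hm_iff.1 hA'⟩
        refine ⟨fun j => p j.1 • ⟨A, hAm⟩, ?_⟩
        ext i
        change ∑ j : {j // s j = 1}, (p j.1 • A) i.1 j.1 = A.mulVec p i.1
        rw [Matrix.mulVec, dotProduct, ← Fintype.sum_subtype_add_sum_subtype (fun k => s k = 1)]
        have : ∑ k : {k // ¬ s k = 1}, A i.1 k.1 * p k.1 = 0 := by
          refine Finset.sum_eq_zero fun k _ => ?_
          have : p k.1 = 0 := by
            by_contra hc
            exact k.2 (hp k.1 hc)
          rw [this, mul_zero]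
        rw [this, add_zero]
        refine Finset.sum_congr rfl fun k _ => ?_
        rw [Matrix.smul_apply, smul_eq_mul, mul_comm]
      | zero => exact Submodule.zero_mem _
      | add u w _ _ hu hw =>
        exact Submodule.add_mem _ hu hw
      | smul c u _ hu => exact Submodule.smul_mem _ c hu
    obtain ⟨Y, hY⟩ := key v' hsp
    refine ⟨Y, hY.trans ?_⟩
    ext i
    simp [v', i.2]
  have h3 := LinearMap.finrank_le_finrank_of_surjective hg
  rw [Module.finrank_fintype_fun_eq_card, Fintype.card_subtype, Module.finrank_pi_fintype] at h3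
  simp only [Finset.sum_const, Finset.card_univ, smul_eq_mul] at h3
  rw [Fintype.card_subtype] at h3
  refine h3.trans ?_
  rw [pow_three]
  exact Nat.mul_le_mul_left _ hd1

end MT
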