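import Pool.Agent.Helper21.WD.StmtsQ
import Pool.Agent.Helper2.MT9.TOP

/-!
# T14, row BD3: bounds for the middle piece
-/

set_option autoImplicit false

open Matrix

namespace MT

open BND92

namespace BD392

variable {K : Type} [Field K] {n : ℕ}

theorem card_neg (π : Equiv.Perm (Fin n)) {s : Fin n → ℤ} (hπ : ∀ i, s (π i) = - s i) :
    (Finset.univ.filter fun j => s j = -1).card = (Finset.univ.filter fun j => s j = 1).card := by
  symm
  refine Finset.card_bij (fun j _ => π j) ?_ ?_ ?_
  · intro j hj
    simp only [Finset.mem_filter, Finset.mem_univ, true_and] at hj ⊢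
    rw [hπ, hj]
  · intro i _ j _ h
    exact π.injective h
  · intro j hj
    simp only [Finset.mem_filter, Finset.mem_univ, true_and] at hj
    refine ⟨π.symm j, ?_, π.apply_symm_apply j⟩
    simp only [Finset.mem_filter, Finset.mem_univ, true_and]
    have h1 := hπ (π.symm j)
    rw [π.apply_symm_apply] at h1
    omega

theorem card_tot {s : Fin n → ℤ} (hs : ∀ j, |s j| ≤ 1) :
    (Finset.univ.filter fun j => s j = 1).card + (Finset.univ.filter fun j => s j = -1).card +
      (Finset.univ.filter fun j => s j = 0).card = n := by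
  classical
  have h1 : Finset.univ.filter (fun j => ¬ s j = 1) =
      (Finset.univ.filter fun j => s j = -1) ∪ (Finset.univ.filter fun j => s j = 0) := by
    ext j
    simp only [Finset.mem_filter, Finset.mem_univ, true_and, Finset.mem_union]
    have := abs_le.mp (hs j)
    omega
  have h2 : Disjoint (Finset.univ.filter fun j => s j = -1)
      (Finset.univ.filter fun j => s j = 0) := by
    rw [Finset.disjoint_filter]
    intro j _ h3 h4
    omega
  have h3 := Finset.card_filter_add_card_filter_not (s := (Finset.univ : Finset (Fin n)))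
    (fun j => s j = 1)
  rw [h1, Finset.card_union_of_disjoint h2, Finset.card_univ, Fintype.card_fin] at h3
  omega

/-- the middle piece is generated by the top piece -/
theorem mid_le [CharZero K] (hSPB : ST_SPB) {ε : K} {ψ : Matrix (Fin n) (Fin n) K} {s : Fin n → ℤ}
    {a : Submodule K (Matrix (Fin n) (Fin n) K)} (ha : GrD ε ψ s a) (hs : ∀ j, |s j| ≤ 1)
    (h1 : ∃ j, s j = 1) :
    (Finset.univ.filter fun j => s j = 0).card ≤
      (Finset.univ.filter fun j => s j = 1).card * Module.finrank K (gr s (-1) a) := by
  let g : ({j // s j = 1} → gr s (-1) a) →ₗ[K] ({j // s j = 0} → K) :=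
    { toFun := fun Y i => ∑ j : {j // s j = 1}, (Y j : Matrix (Fin n) (Fin n) K) i.1 j.1
      map_add' := by
        intro Y Y'
        ext i
        simp only [Pi.add_apply, Submodule.coe_add, Matrix.add_apply, Finset.sum_add_distrib]
      map_smul' := by
        intro c Y
        ext i
        simp only [Pi.smul_apply, Submodule.coe_smul, Matrix.smul_apply, smul_eq_mul,
          Finset.mul_sum, RingHom.id_apply] }
  have hg : Function.Surjective g := by
    intro v
    let v' : Fin n → K := fun j => if h : s j = 0 then v ⟨j, h⟩ else 0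
    have hv' : ∀ j, v' j ≠ 0 → s j = 0 := by
      intro j hj
      by_contra hc
      exact hj (by simp [v', hc])
    have hsp := (hSPB K n ε ψ s a ha hs h1).1 v' hv'
    have key : ∀ w ∈ Submodule.span K {u | ∃ A ∈ a, cmp s (-1) A = A ∧ ∃ x : Fin n → K,
        (∀ j, x j ≠ 0 → s j = 1) ∧ u = A.mulVec x},
        (fun i : {j // s j = 0} => w i.1) ∈ LinearMap.range g := by
      intro w hw
      induction hw using Submodule.span_induction with
      | mem u hu =>
        obtain ⟨A, hA, hA', p, hp, rfl⟩ := hu
        have hAm : A ∈ gr s (-1) a := ⟨hA, hm_iff.1 hA'⟩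
        refine ⟨fun j => p j.1 • ⟨A, hAm⟩, ?_⟩
        ext i
        change ∑ j : {j // s j = 1}, (p j.1 • A) i.1 j.1 = A.mulVec p i.1
        rw [Matrix.mulVec, dotProduct, ← Fintype.sum_subtype_add_sum_subtype (fun k => s k = 1)]
        have : ∑ k : {k // ¬ s k = 1}, A i.1 k.1 * p k.1 = 0 := by
          refine Finset.sum_eq_zero fun k _ => ?_
          have : p k.1 = 0 := by
            by_contra hc
            exact k.2 (hp k.1 hc)
          rw [this, mul_zero]
        rw [this, add_zero]
        refine Finset.sum_congr rfl fun k _ => ?_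
        rw [Matrix.smul_apply, smul_eq_mul, mul_comm]
      | zero => exact Submodule.zero_mem _
      | add u w _ _ hu hw =>
        exact Submodule.add_mem _ hu hw
      | smul c u _ hu => exact Submodule.smul_mem _ c hu
    obtain ⟨Y, hY⟩ := key v' hsp
    refine ⟨Y, hY.trans ?_⟩
    ext i
    simp [v', i.2]
  have h3 := LinearMap.finrank_le_finrank_of_surjective hg
  rw [Module.finrank_fintype_fun_eq_card, Fintype.card_subtype, Module.finrank_pi_fintype] at h3
  simp only [Finset.sum_const, Finset.card_univ, smul_eq_mul] at h3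
  rwa [Fintype.card_subtype] at h3

/-- elements of degree zero without top block live on the middle piece -/
theorem top_zero {ε : K} {ψ : Matrix (Fin n) (Fin n) K} {s : Fin n → ℤ}
    {a : Submodule K (Matrix (Fin n) (Fin n) K)} (ha : GrD ε ψ s a) (hs : ∀ j, |s j| ≤ 1)
    {z : Matrix (Fin n) (Fin n) K} (hz : z ∈ a) (hz0 : Hm s 0 z)
    (h : ∀ i j, s i = 1 → s j = 1 → z i j = 0) : z ∈ Mid0 s a := by
  have hrow : ∀ i k, s i = 1 → z i k = 0 := by
    intro i k hi
    by_contra hc
    have h3 := hz0 i k hc
    exact hc (h i k hi (by omega))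
  refine ⟨hz, fun i j hij => ?_⟩
  have h3 := hz0 i j hij
  have h4 : s j ≠ 1 := by
    intro h5
    exact hij (hrow i j (by omega))
  have h5 : s j ≠ -1 := by
    intro h5
    apply hij
    have h6 : ∀ k, (ψ * z) k j = 0 := by
      intro k
      have h7 := congrFun (congrFun (ha.iso z hz) k) j
      rw [Matrix.add_apply, Matrix.zero_apply] at h7
      have h8 : (z.transpose * ψ) k j = 0 := by
        rw [Matrix.mul_apply]
        refine Finset.sum_eq_zero fun i' _ => ?_
        by_cases h9 : ψ i' j = 0
        · rw [h9, mul_zero]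
        · have := ha.grad i' j h9
          rw [Matrix.transpose_apply, hrow i' k (by omega), zero_mul]
      rw [h8, zero_add] at h7
      exact h7
    have h7 : z = ψ⁻¹ * (ψ * z) := by
      rw [← Matrix.mul_assoc, Matrix.nonsing_inv_mul ψ (isUnit_iff_ne_zero.2 ha.unit),
        Matrix.one_mul]
    rw [h7, Matrix.mul_apply]
    refine Finset.sum_eq_zero fun k _ => ?_
    rw [h6, mul_zero]
  have h6 := abs_le.1 (hs j)
  constructor <;> omega

/-- the degree zero part -/
theorem deg_zero_le {ε : K} {ψ : Matrix (Fin n) (Fin n) K} {s : Fin n → ℤ}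
    {a : Submodule K (Matrix (Fin n) (Fin n) K)} (ha : GrD ε ψ s a) (hs : ∀ j, |s j| ≤ 1) :
    Module.finrank K (gr s 0 a) ≤ (Finset.univ.filter fun j => s j = 1).card ^ 2 +
      Module.finrank K (Mid0 s a) := by
  let f : (gr s 0 a) →ₗ[K] Matrix {j // s j = 1} {j // s j = 1} K :=
    { toFun := fun y => (y : Matrix (Fin n) (Fin n) K).submatrix Subtype.val Subtype.val
      map_add' := fun _ _ => rfl
      map_smul' := fun _ _ => rfl }
  have h1 := LinearMap.finrank_range_add_finrank_ker f
  have h2 : Module.finrank K (LinearMap.range f) ≤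
      (Finset.univ.filter fun j => s j = 1).card ^ 2 := by
    refine (Submodule.finrank_le _).trans ?_
    rw [Module.finrank_matrix, Module.finrank_self, mul_one, Fintype.card_subtype, sq]
  have hk : ∀ y : LinearMap.ker f, ∀ i j, s i = 1 → s j = 1 → y.1.1 i j = 0 := by
    intro y i j hi hj
    have h5 : (y.1.1.submatrix Subtype.val Subtype.val :
        Matrix {j // s j = 1} {j // s j = 1} K) = 0 := LinearMap.mem_ker.1 y.2
    exact congrFun (congrFun h5 ⟨i, hi⟩) ⟨j, hj⟩
  let e : LinearMap.ker f →ₗ[K] Mid0 s a :=
    { toFun := fun y => ⟨y.1.1, top_zero ha hs y.1.2.1 y.1.2.2 (hk y)⟩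
      map_add' := fun _ _ => rfl
      map_smul' := fun _ _ => rfl }
  have h3 : Function.Injective e := by
    intro y y' hy
    have := congrArg Subtype.val hy
    exact Subtype.ext (Subtype.ext this)
  have h4 := LinearMap.finrank_le_finrank_of_injective h3
  omega

end BD392

open BD392

theorem st_BD3 (hPOSC : ST_POSC) (hDIM : ST_DIM) (hSPB : ST_SPB) : ST_BD3 := by
  intro K _ _ _ n ε ψ s a ha hs h1
  obtain ⟨d1, d2⟩ := hDIM K n ε ψ s a ha hs
  have hp := hPOSC K n ε ψ s a ha hs h1
  obtain ⟨π, hπ⟩ := Top9.exists_perm ψ s ha.unit ha.grad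
  have hneg := card_neg π hπ
  have htot := card_tot hs
  have hm := mid_le hSPB ha hs h1
  have h0 := deg_zero_le ha hs
  refine ⟨Module.finrank K (gr s 1 a), by rw [d1] at hm; exact hm, ?_⟩
  rw [d2] at hp
  set A := (Finset.univ.filter fun j => s j = 1).card with hA
  set B := (Finset.univ.filter fun j => s j = 0).card with hB
  set d := Module.finrank K (gr s 1 a) with hd
  set e := Module.finrank K (gr s 2 a) with he
  set l := Module.finrank K (gr s 0 a) with hl
  set μ := Module.finrank K (Mid0 s a) with hμ
  have hn : n = 2 * A + B := by omega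
  rw [hn] at hp
  have h5 : 2 * A * l ≤ 2 * A * (A ^ 2 + μ) := Nat.mul_le_mul_left _ h0
  have h6 : 0 ≤ B * (2 * e) := Nat.zero_le _
  nlinarith [h5, hp, h6]

end MT
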