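import Pool.Agent.Helper5.WD.Stmts

/-! Row XLMW of the sheet `Pool.Agent.Helper5.WD.Stmts` (from DEC, XTAI, XCMP, XPSW). -/

set_option autoImplicit false

open Finset Pool.Agent.Helper8.UN Pool.Agent.Helper5.FV

namespace Pool.Agent.Helper5.WD

namespace XLMW92

lemma pos_mono {n : ℕ} (E : Finset (Finset (Fin n))) (U : Finset (Fin n)) (k : ℕ)
    (h : 0 < PP E univ k) : 0 < PP E U k := by
  classical
  unfold PP at h ⊢
  obtain ⟨f, hf⟩ := Finset.card_pos.1 h
  refine Finset.card_pos.2 ⟨fun v => if v ∈ U then f v else 0, ?_⟩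
  unfold CC at hf ⊢
  rw [mem_filter, Fintype.mem_piFinset] at hf ⊢
  obtain ⟨h1, h2⟩ := hf
  refine ⟨fun v => ?_, ?_⟩
  · by_cases hv : v ∈ U
    · have := h1 v
      simp only [mem_univ, if_true] at this
      simpa [hv] using this
    · simp [hv]
  · intro e he heU
    obtain ⟨u, hu, v, hv, huv⟩ := h2 e he (subset_univ e)
    refine ⟨u, hu, v, hv, ?_⟩
    simpa [heU hu, heU hv] using huv

lemma mono_k {n : ℕ} (E : Finset (Finset (Fin n))) (W : Finset (Fin n)) (k : ℕ) :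
    PP E W k ≤ PP E W (k + 1) := by
  classical
  unfold PP
  refine card_le_card ?_
  intro f hf
  unfold CC at hf ⊢
  rw [mem_filter, Fintype.mem_piFinset] at hf ⊢
  refine ⟨fun v => ?_, hf.2⟩
  have := hf.1 v
  by_cases hv : v ∈ W
  · simp only [hv, if_true, mem_Icc] at this ⊢
    omega
  · simpa [hv] using this

lemma large : ∃ n₁ : ℕ, 4 ≤ n₁ ∧ ∀ n : ℕ, n₁ ≤ n → 2 ≤ Real.log n ∧
    200 * Real.log n ≤ n ∧ Real.log n ≤ Real.sqrt n := by
  have h1 : ∀ᶠ x : ℝ in Filter.atTop, 2 ≤ Real.log x :=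
    Real.tendsto_log_atTop.eventually_ge_atTop 2
  have h2 : ∀ᶠ x : ℝ in Filter.atTop, 200 * Real.log x ≤ x := by
    have := Real.isLittleO_log_id_atTop.def (show (0 : ℝ) < 1 / 200 by norm_num)
    filter_upwards [this, Filter.eventually_ge_atTop 1] with x hx hx1
    rw [Real.norm_of_nonneg (Real.log_nonneg hx1), id, Real.norm_of_nonneg (by linarith)] at hx
    linarith
  have h3 : ∀ᶠ x : ℝ in Filter.atTop, Real.log x ≤ Real.sqrt x := by
    have := (isLittleO_log_rpow_atTop (show (0 : ℝ) < 1 / 2 by norm_num)).def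
      (show (0 : ℝ) < 1 by norm_num)
    filter_upwards [this, Filter.eventually_ge_atTop 1] with x hx hx1
    rw [Real.norm_of_nonneg (Real.log_nonneg hx1), Real.norm_of_nonneg (by positivity),
      ← Real.sqrt_eq_rpow, one_mul] at hx
    exact hx
  obtain ⟨n₁, hn₁⟩ := Filter.eventually_atTop.1
    (tendsto_natCast_atTop_atTop.eventually (h1.and (h2.and h3)))
  exact ⟨max n₁ 4, le_max_right _ _, fun n hn => hn₁ n (le_trans (le_max_left _ _) hn)⟩

end XLMW92

open XLMW92 in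
theorem st_XLMW (hDEC : ST_DEC) (hTAI : ST_XTAI) (hCMP : ST_XCMP) (hPSW : ST_XPSW) :
    ST_XLMW := by
  classical
  obtain ⟨n1, hn14, hlarge⟩ := large
  obtain ⟨n2, hTAI⟩ := hTAI
  obtain ⟨n3, hCMP⟩ := hCMP
  obtain ⟨n4, hPSW⟩ := hPSW
  refine ⟨max (max n1 n2) (max n3 n4), ?_⟩
  intro n hn D0 r m E W0 hR hm1 hm2 hU
  have b1 : n1 ≤ n := le_trans (le_trans (le_max_left _ _) (le_max_left _ _)) hn
  have b2 : n2 ≤ n := le_trans (le_trans (le_max_right _ _) (le_max_left _ _)) hn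
  have b3 : n3 ≤ n := le_trans (le_trans (le_max_left _ _) (le_max_right _ _)) hn
  have b4 : n4 ≤ n := le_trans (le_trans (le_max_right _ _) (le_max_right _ _)) hn
  obtain ⟨hl2, hl200, hlsq⟩ := hlarge n b1
  have hn4 : (4 : ℝ) ≤ n := by exact_mod_cast hn14.trans b1
  have hlpos : 0 < Real.log n := by linarith
  have hN : 200 ≤ (n : ℝ) / Real.log n := by
    rw [le_div_iff₀ hlpos]
    exact hl200
  have hNn : (n : ℝ) / Real.log n ≤ n / 2 :=
    div_le_div_of_nonneg_left (by linarith) (by norm_num) hl2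
  set N : ℝ := (n : ℝ) / Real.log n with hNdef
  have hk1 : 67 / 100 * N ≤ ((m + 1 : ℕ) : ℝ) := by push_cast; linarith
  have hk2 : ((m + 1 : ℕ) : ℝ) ≤ 121 / 100 * N := by push_cast; linarith
  have hmn : (m : ℝ) + 1 ≤ n := by push_cast at hk2; linarith
  have hPV : 0 < PP E univ (m + 1) := hPSW n b4 D0 r (m + 1) E W0 hR (by linarith)
  have hPU : (0 : ℝ) < PP E (univ \ W0) (m + 1) := by
    exact_mod_cast pos_mono E (univ \ W0) (m + 1) hPV
  have htt : ∀ Q k, 0 ≤ tt E Q k := fun Q k => by unfold tt; positivity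
  have hd : Real.exp (1 / 1000 * Real.log n / Real.sqrt n) ≤ 102 / 100 := by
    have hs : 0 < Real.sqrt n := Real.sqrt_pos.2 (by linarith)
    have h1 : 1 / 1000 * Real.log n / Real.sqrt n ≤ 1 / 1000 := by
      rw [div_le_iff₀ hs]
      linarith
    refine (Real.exp_le_exp.2 h1).trans ?_
    have h2 := Real.exp_bound_div_one_sub_of_interval (x := 1 / 1000) (by norm_num) (by norm_num)
    refine h2.trans ?_
    norm_num
  have hgood : ∀ Q ∈ QQ E W0, (un Q).card < LL n W0 + W0.card →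
      ((m : ℝ) + 1) * tt E Q m ≤ 10812 / 10000 * tt E Q (m + 1) := by
    intro Q hQ hc
    obtain ⟨_, _, _, _, _, h6, _⟩ := hCMP n b3 D0 r (m + 1) E W0 Q hR hQ hc hk1 hk2
    simp only [Nat.add_sub_cancel] at h6
    have h7 : (PP E (univ \ W0) (m + 1) : ℝ) * (((m : ℝ) + 1) * tt E Q m) ≤
        (PP E (univ \ W0) (m + 1) : ℝ) * (10812 / 10000 * tt E Q (m + 1)) := by
      calc (PP E (univ \ W0) (m + 1) : ℝ) * (((m : ℝ) + 1) * tt E Q m) =
            ((m : ℝ) + 1) * ((PP E (univ \ W0) (m + 1) : ℝ) * tt E Q m) := by ring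
        _ ≤ ((m : ℝ) + 1) * (Real.exp (1 / 1000 * Real.log n / Real.sqrt n) *
            (tt E Q (m + 1) * PP E (univ \ W0) m)) :=
            mul_le_mul_of_nonneg_left h6 (by positivity)
        _ ≤ ((m : ℝ) + 1) * (102 / 100 * (tt E Q (m + 1) * PP E (univ \ W0) m)) := by
            refine mul_le_mul_of_nonneg_left (mul_le_mul_of_nonneg_right hd ?_) (by positivity)
            exact mul_nonneg (htt _ _) (Nat.cast_nonneg _)
        _ = 102 / 100 * tt E Q (m + 1) * (((m : ℝ) + 1) * PP E (univ \ W0) m) := by ring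
        _ ≤ 102 / 100 * tt E Q (m + 1) * (106 / 100 * PP E (univ \ W0) (m + 1)) :=
            mul_le_mul_of_nonneg_left hU (mul_nonneg (by norm_num) (htt _ _))
        _ = _ := by ring
    exact le_of_mul_le_mul_left h7 hPU
  have hdm : ∀ k, (PP E univ k : ℝ) = ∑ Q ∈ QQ E W0, tt E Q k := by
    intro k
    rw [(hDEC n k E W0 hR.two).1]
    push_cast
    rfl
  have hbad := hTAI n b2 D0 r m E W0 hR (by linarith)
  have hmono : (PP E univ m : ℝ) ≤ PP E univ (m + 1) := by exact_mod_cast mono_k E univ m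
  set G := (QQ E W0).filter (fun Q => ¬ LL n W0 + W0.card ≤ (un Q).card) with hG
  set Bd := (QQ E W0).filter (fun Q => LL n W0 + W0.card ≤ (un Q).card) with hBd
  have hsplit : ∀ k, ∑ Q ∈ Bd, tt E Q k + ∑ Q ∈ G, tt E Q k = ∑ Q ∈ QQ E W0, tt E Q k :=
    fun k => Finset.sum_filter_add_sum_filter_not _ _ _
  have hBm : ((m : ℝ) + 1) * ∑ Q ∈ Bd, tt E Q m ≤ 5 / 1000 * PP E univ (m + 1) := by
    have hS : 0 ≤ ∑ Q ∈ Bd, tt E Q m := Finset.sum_nonneg fun Q _ => htt Q m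
    have h1 : (n : ℝ) ^ 4 * (((m : ℝ) + 1) * ∑ Q ∈ Bd, tt E Q m) ≤ PP E univ (m + 1) := by
      calc (n : ℝ) ^ 4 * (((m : ℝ) + 1) * ∑ Q ∈ Bd, tt E Q m) ≤
            (n : ℝ) ^ 4 * (n * ∑ Q ∈ Bd, tt E Q m) :=
            mul_le_mul_of_nonneg_left (mul_le_mul_of_nonneg_right hmn hS) (by positivity)
        _ = (n : ℝ) ^ 5 * ∑ Q ∈ Bd, tt E Q m := by ring
        _ ≤ _ := hbad.trans hmono
    have h2 : (200 : ℝ) ≤ (n : ℝ) ^ 4 := by
      calc (200 : ℝ) ≤ 4 ^ 4 := by norm_num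
        _ ≤ (n : ℝ) ^ 4 := pow_le_pow_left₀ (by norm_num) hn4 4
    have h3 : 0 ≤ ((m : ℝ) + 1) * ∑ Q ∈ Bd, tt E Q m := mul_nonneg (by positivity) hS
    have h4 := mul_le_mul_of_nonneg_right h2 h3
    linarith
  have hGm : ((m : ℝ) + 1) * ∑ Q ∈ G, tt E Q m ≤ 10812 / 10000 * PP E univ (m + 1) := by
    calc ((m : ℝ) + 1) * ∑ Q ∈ G, tt E Q m = ∑ Q ∈ G, ((m : ℝ) + 1) * tt E Q m := by
          rw [Finset.mul_sum]
      _ ≤ ∑ Q ∈ G, 10812 / 10000 * tt E Q (m + 1) := by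
          refine Finset.sum_le_sum fun Q hQ => ?_
          rw [hG, mem_filter, not_le] at hQ
          exact hgood Q hQ.1 hQ.2
      _ = 10812 / 10000 * ∑ Q ∈ G, tt E Q (m + 1) := by rw [Finset.mul_sum]
      _ ≤ 10812 / 10000 * PP E univ (m + 1) := by
          rw [hdm (m + 1), ← hsplit (m + 1)]
          have : 0 ≤ ∑ Q ∈ Bd, tt E Q (m + 1) := Finset.sum_nonneg fun Q _ => htt Q (m + 1)
          linarith
  rw [hdm m, ← hsplit m, mul_add]
  have hp : (0 : ℝ) ≤ PP E univ (m + 1) := Nat.cast_nonneg _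
  linarith

end Pool.Agent.Helper5.WD
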