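import Pool.Agent.Helper92.WD.BD3

/-!
# T13, row BD2: the middle piece is small if there are few elements of degree two and few elements
which live on the middle piece
-/

set_option autoImplicit false

open Matrix

namespace MT

open BND92 BD392

namespace BD292

variable {K : Type} [Field K] {n : ℕ}

/-- the map `y ↦ [x, y]` on the elements of degree `-1` -/
def adm (s : Fin n → ℤ) (a : Submodule K (Matrix (Fin n) (Fin n) K))
    (x : Matrix (Fin n) (Fin n) K) : (gr s (-1) a) →ₗ[K] Matrix (Fin n) (Fin n) K where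
  toFun := fun y => x * (y : Matrix (Fin n) (Fin n) K) - y * x
  map_add' := by
    intro y y'
    simp only [Submodule.coe_add, Matrix.mul_add, Matrix.add_mul]
    abel
  map_smul' := by
    intro c y
    simp only [Submodule.coe_smul, Matrix.mul_smul, Matrix.smul_mul, RingHom.id_apply, smul_sub]

theorem adm_add (s : Fin n → ℤ) (a : Submodule K (Matrix (Fin n) (Fin n) K))
    (x x' : Matrix (Fin n) (Fin n) K) (t : K) :
    adm s a (x + t • x') = adm s a x + t • adm s a x' := by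
  ext1 y
  simp only [adm, LinearMap.coe_mk, AddHom.coe_mk, LinearMap.add_apply, LinearMap.smul_apply,
    Matrix.add_mul, Matrix.mul_add, Matrix.smul_mul, Matrix.mul_smul, smul_sub]
  abel

theorem exists_max (s : Fin n → ℤ) (a : Submodule K (Matrix (Fin n) (Fin n) K)) :
    ∃ x ∈ gr s 1 a, ∀ x' ∈ gr s 1 a, Module.finrank K (LinearMap.range (adm s a x')) ≤
      Module.finrank K (LinearMap.range (adm s a x)) := by
  let S : Set ℕ := {r | ∃ x ∈ gr s 1 a, Module.finrank K (LinearMap.range (adm s a x)) = r}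
  have hS : S.Nonempty := ⟨_, 0, (gr s 1 a).zero_mem, rfl⟩
  have hb : BddAbove S := by
    refine ⟨Module.finrank K (Matrix (Fin n) (Fin n) K), ?_⟩
    rintro _ ⟨x, _, rfl⟩
    exact Submodule.finrank_le _
  obtain ⟨x, hx, hx'⟩ := Nat.sSup_mem hS hb
  exact ⟨x, hx, fun x' hx2 => by rw [hx']; exact le_csSup hb ⟨x', hx2, rfl⟩⟩

variable [CharZero K] [IsAlgClosed K] {ε : K} {ψ : Matrix (Fin n) (Fin n) K} {s : Fin n → ℤ}
  {a : Submodule K (Matrix (Fin n) (Fin n) K)}

theorem trc (hTRC : ST_TRC) (ha : GrD ε ψ s a) (δ : ℤ) (x : Matrix (Fin n) (Fin n) K) (hx : x ∈ a)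
    (hδ : Hm s δ x) (h : ∀ y ∈ a, Hm s (-δ) y → (x * y).trace = 0) : x = 0 := by
  refine hTRC K n ψ a ha.unit ha.brk ha.irr ha.iso x hx fun y hy => ?_
  rw [trace_cmp s δ x y hδ]
  exact h _ (ha.comp y hy _) (hm_cmp s _ y)

/-- the key relation -/
theorem rel (hTRC : ST_TRC) (ha : GrD ε ψ s a) {x : Matrix (Fin n) (Fin n) K}
    (hx : x ∈ gr s 1 a) (hmax : ∀ x' ∈ gr s 1 a, Module.finrank K (LinearMap.range (adm s a x')) ≤
      Module.finrank K (LinearMap.range (adm s a x))) {y : Matrix (Fin n) (Fin n) K}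
    (hy : y ∈ gr s (-1) a) (hxy : x * y = y * x) {x' : Matrix (Fin n) (Fin n) K}
    (hx' : x' ∈ gr s 1 a) (hxx : x * x' = x' * x) :
    (2 : K) • (y * x' * y) = y * y * x' + x' * (y * y) := by
  have hi : ∀ x' ∈ gr s 1 a, ∃ y' ∈ gr s (-1) a, x' * y - y * x' = x * y' - y' * x := by
    intro x' hx'
    have := pencil (adm s a x) (adm s a x') (fun t => by
      rw [← adm_add]
      exact hmax _ ((gr s 1 a).add_mem hx ((gr s 1 a).smul_mem t hx'))) ⟨y, hy⟩
        (sub_eq_zero.2 hxy)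
    obtain ⟨y', hy'⟩ := this
    exact ⟨y'.1, y'.2, hy'.symm⟩
  have hii : ∀ z ∈ a, Hm s 0 z → z * x = x * z → y * z - z * y = 0 := by
    intro z hz hz0 hzx
    refine trc hTRC ha (-1) _ (ha.brk y hy.1 z hz) (hy.2.brk hz0 (by norm_num))
      fun x' hx'a hx' => ?_
    rw [neg_neg] at hx'
    obtain ⟨y', hy', h3⟩ := hi x' ⟨hx'a, hx'⟩
    have t1 : ((y * z - z * y) * x').trace = ((x' * y - y * x') * z).trace := by
      rw [sub_mul, sub_mul, Matrix.trace_sub, Matrix.trace_sub, Matrix.mul_assoc x' y z,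
        Matrix.trace_mul_comm x', Matrix.mul_assoc y x' z, Matrix.trace_mul_comm y,
        Matrix.mul_assoc x' z y, Matrix.trace_mul_comm x']
    have t2 : ((x * y' - y' * x) * z).trace = (y' * (z * x - x * z)).trace := by
      rw [sub_mul, mul_sub, Matrix.trace_sub, Matrix.trace_sub, Matrix.mul_assoc x y' z,
        Matrix.trace_mul_comm x, ← Matrix.mul_assoc y' z x, Matrix.mul_assoc y' x z]
    rw [t1, h3, t2, hzx, sub_self, Matrix.mul_zero, Matrix.trace_zero]
  have hz : (x' * y - y * x') * x = x * (x' * y - y * x') := by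
    rw [sub_mul, mul_sub, Matrix.mul_assoc x' y x, ← hxy, ← Matrix.mul_assoc x' x y, ← hxx,
      Matrix.mul_assoc y x' x, ← hxx, ← Matrix.mul_assoc y x x', ← hxy, Matrix.mul_assoc x x' y,
      Matrix.mul_assoc x y x']
  have h5 := hii _ (ha.brk x' hx'.1 y hy.1) (hx'.2.brk hy.2 (by norm_num)) hz
  rw [mul_sub, sub_mul] at h5
  have h6 : y * (x' * y) = y * x' * y := (Matrix.mul_assoc _ _ _).symm
  have h7 : y * (y * x') = y * y * x' := (Matrix.mul_assoc _ _ _).symm
  have h8 : x' * y * y = x' * (y * y) := Matrix.mul_assoc _ _ _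
  rw [h6, h7, h8] at h5
  rw [two_smul]
  have h9 : y * x' * y + y * x' * y - (y * y * x' + x' * (y * y)) =
    y * x' * y - y * y * x' - (x' * (y * y) - y * x' * y) := by abel
  rw [← sub_eq_zero, h9, h5]

/-- `[[x', y], y]` -/
def dbl (x' y : Matrix (Fin n) (Fin n) K) : Matrix (Fin n) (Fin n) K :=
  (x' * y - y * x') * y - y * (x' * y - y * x')

omit [CharZero K] [IsAlgClosed K] in
theorem dbl_eq (x' y : Matrix (Fin n) (Fin n) K) :
    dbl x' y = y * y * x' + x' * (y * y) - (2 : K) • (y * x' * y) := by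
  unfold dbl
  rw [sub_mul, mul_sub, two_smul]
  have h6 : y * (x' * y) = y * x' * y := (Matrix.mul_assoc _ _ _).symm
  have h7 : y * (y * x') = y * y * x' := (Matrix.mul_assoc _ _ _).symm
  have h8 : x' * y * y = x' * (y * y) := Matrix.mul_assoc _ _ _
  rw [h6, h7, h8]
  abel

omit [CharZero K] [IsAlgClosed K] in
theorem dbl_tr (x₁ x' y : Matrix (Fin n) (Fin n) K) :
    (dbl x₁ y * x').trace = (dbl x' y * x₁).trace := by
  rw [dbl_eq, dbl_eq, sub_mul, sub_mul, add_mul, add_mul, Matrix.smul_mul, Matrix.smul_mul,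
    Matrix.trace_sub, Matrix.trace_sub, Matrix.trace_add, Matrix.trace_add, Matrix.trace_smul,
    Matrix.trace_smul]
  have h1 : (y * y * x₁ * x').trace = (x' * (y * y) * x₁).trace := by
    rw [Matrix.trace_mul_comm, ← Matrix.mul_assoc]
  have h2 : (x₁ * (y * y) * x').trace = (y * y * x' * x₁).trace := by
    rw [Matrix.mul_assoc, Matrix.trace_mul_comm]
  have h3 : (y * x₁ * y * x').trace = (y * x' * y * x₁).trace := by
    rw [Matrix.mul_assoc (y * x₁) y x', Matrix.trace_mul_comm, ← Matrix.mul_assoc]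
  rw [h1, h2, h3]
  ring

omit [CharZero K] [IsAlgClosed K] in
theorem dbl_sq (x₁ y : Matrix (Fin n) (Fin n) K) :
    (dbl x₁ y * x₁).trace = -((x₁ * y - y * x₁) * (x₁ * y - y * x₁)).trace := by
  unfold dbl
  have h1 : ((x₁ * y - y * x₁) * y * x₁).trace = ((x₁ * y - y * x₁) * (y * x₁)).trace := by
    rw [Matrix.mul_assoc]
  have h2 : (y * (x₁ * y - y * x₁) * x₁).trace = ((x₁ * y - y * x₁) * (x₁ * y)).trace := by
    rw [Matrix.mul_assoc, Matrix.trace_mul_comm, Matrix.mul_assoc]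
  rw [sub_mul, Matrix.trace_sub, h1, h2, ← Matrix.trace_sub, ← Matrix.mul_sub, ← Matrix.trace_neg,
    ← Matrix.mul_neg, neg_sub]

theorem ker_le (hTRC : ST_TRC) (ha : GrD ε ψ s a) (hs : ∀ j, |s j| ≤ 1)
    (h2 : ∃ X₀ : Matrix (Fin n) (Fin n) K, ∀ z ∈ a, cmp s 2 z = z → ∃ c : K, z = c • X₀)
    {x : Matrix (Fin n) (Fin n) K} (hx : x ∈ gr s 1 a)
    (hmax : ∀ x' ∈ gr s 1 a, Module.finrank K (LinearMap.range (adm s a x')) ≤
      Module.finrank K (LinearMap.range (adm s a x))) :
    Module.finrank K (LinearMap.ker (adm s a x)) ≤ 1 := by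
  obtain ⟨X₀, hX₀⟩ := h2
  have hbr : ∀ x₁ ∈ gr s 1 a, ∀ x₂ ∈ gr s 1 a, ∃ c : K, x₁ * x₂ - x₂ * x₁ = c • X₀ :=
    fun x₁ h1 x₂ h2 => hX₀ _ (ha.brk x₁ h1.1 x₂ h2.1) (hm_iff.2 (h1.2.brk h2.2 (by norm_num)))
  -- if all double brackets vanish then `y = 0`
  have hzero : ∀ y ∈ gr s (-1) a, (∀ x' ∈ gr s 1 a, dbl x' y = 0) → y = 0 := by
    intro y hy h
    refine trc hTRC ha (-1) y hy.1 hy.2 fun x' hx'a hx' => ?_
    rw [neg_neg] at hx'
    rw [Matrix.trace_mul_comm]
    have h3 := h x' ⟨hx'a, hx'⟩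
    rw [dbl_eq, sub_eq_zero] at h3
    exact nil3 hs hx' hy.2 h3.symm
  have hcom : ∀ y : LinearMap.ker (adm s a x), x * y.1.1 = y.1.1 * x := fun y =>
    sub_eq_zero.1 (LinearMap.mem_ker.1 y.2)
  have hrel : ∀ y : LinearMap.ker (adm s a x), ∀ x' ∈ gr s 1 a, x * x' = x' * x →
      dbl x' y.1.1 = 0 := by
    intro y x' hx' hxx
    rw [dbl_eq, sub_eq_zero]
    exact (rel hTRC ha hx hmax y.1.2 (hcom y) hx' hxx).symm
  by_cases hA : ∀ x' ∈ gr s 1 a, x * x' = x' * x
  · have h0 : ∀ y : LinearMap.ker (adm s a x), y = 0 := by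
      intro y
      have := hzero y.1.1 y.1.2 fun x' hx' => hrel y x' hx' (hA x' hx')
      exact Subtype.ext (Subtype.ext this)
    refine finrank_le_one 0 fun w => ⟨0, ?_⟩
    rw [h0 w, smul_zero]
  · push Not at hA
    obtain ⟨x₁, hx₁, hne⟩ := hA
    obtain ⟨c₁, hc₁⟩ := hbr x hx x₁ hx₁
    have hc₁0 : c₁ ≠ 0 := by
      rintro rfl
      rw [zero_smul, sub_eq_zero] at hc₁
      exact hne hc₁
    have hdec : ∀ x' ∈ gr s 1 a, ∃ c : K, x * (x' - c • x₁) = (x' - c • x₁) * x := by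
      intro x' hx'
      obtain ⟨c, hc⟩ := hbr x hx x' hx'
      refine ⟨c * c₁⁻¹, ?_⟩
      rw [← sub_eq_zero]
      have h3 : x * (x' - (c * c₁⁻¹) • x₁) - (x' - (c * c₁⁻¹) • x₁) * x =
          (x * x' - x' * x) - (c * c₁⁻¹) • (x * x₁ - x₁ * x) := by
        rw [Matrix.mul_sub, Matrix.sub_mul, Matrix.mul_smul, Matrix.smul_mul, smul_sub]
        abel
      rw [h3, hc, hc₁, smul_smul, mul_assoc, inv_mul_cancel₀ hc₁0, mul_one, sub_self]
    -- the quadratic form
    have hq : ∀ y : LinearMap.ker (adm s a x),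
        ((x₁ * y.1.1 - y.1.1 * x₁) * (x₁ * y.1.1 - y.1.1 * x₁)).trace = 0 → y = 0 := by
      intro y hy
      have hR : dbl x₁ y.1.1 ∈ gr s (-1) a := by
        have h4 := ha.brk _ (ha.brk x₁ hx₁.1 _ y.1.2.1) _ y.1.2.1
        have h5 : Hm s 0 (x₁ * y.1.1 - y.1.1 * x₁) := hx₁.2.brk y.1.2.2 (by norm_num)
        exact ⟨h4, h5.brk y.1.2.2 (by norm_num)⟩
      have hR0 : dbl x₁ y.1.1 = 0 := by
        refine trc hTRC ha (-1) _ hR.1 hR.2 fun x' hx'a hx' => ?_
        rw [neg_neg] at hx'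
        obtain ⟨c, hc⟩ := hdec x' ⟨hx'a, hx'⟩
        have h6 : x' = (x' - c • x₁) + c • x₁ := by abel
        have h7 : x' - c • x₁ ∈ gr s 1 a :=
          (gr s 1 a).sub_mem ⟨hx'a, hx'⟩ ((gr s 1 a).smul_mem c hx₁)
        rw [h6, Matrix.mul_add, Matrix.trace_add, Matrix.mul_smul, Matrix.trace_smul, dbl_sq, hy,
          neg_zero, smul_zero, add_zero, dbl_tr, hrel y _ h7 hc, Matrix.zero_mul,
          Matrix.trace_zero]
      have := hzero y.1.1 y.1.2 fun x' hx' => by
        obtain ⟨c, hc⟩ := hdec x' hx'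
        have h7 : x' - c • x₁ ∈ gr s 1 a :=
          (gr s 1 a).sub_mem hx' ((gr s 1 a).smul_mem c hx₁)
        have h8 := hrel y _ h7 hc
        have h9 : dbl x' y.1.1 = dbl (x' - c • x₁) y.1.1 + c • dbl x₁ y.1.1 := by
          simp only [dbl, Matrix.sub_mul, Matrix.mul_sub, Matrix.smul_mul, Matrix.mul_smul,
            smul_sub]
          abel
        rw [h9, h8, hR0, smul_zero, add_zero]
      exact Subtype.ext (Subtype.ext this)
    by_cases hall : ∀ y : LinearMap.ker (adm s a x), y = 0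
    · refine finrank_le_one 0 fun w => ⟨0, ?_⟩
      rw [hall w, smul_zero]
    · push Not at hall
      obtain ⟨y₂, hy₂⟩ := hall
      refine finrank_le_one y₂ fun w => ?_
      let M : LinearMap.ker (adm s a x) → Matrix (Fin n) (Fin n) K := fun y =>
        x₁ * y.1.1 - y.1.1 * x₁
      have hγ : (M y₂ * M y₂).trace ≠ 0 := fun h => hy₂ (hq y₂ h)
      obtain ⟨δ, hδ⟩ := IsAlgClosed.exists_pow_nat_eq
        ((M w * M y₂).trace ^ 2 - (M w * M w).trace * (M y₂ * M y₂).trace) (n := 2) (by norm_num)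
      refine ⟨-((-(M w * M y₂).trace + δ) / (M y₂ * M y₂).trace), ?_⟩
      set t := (-(M w * M y₂).trace + δ) / (M y₂ * M y₂).trace with ht
      have h10 : M (w + t • y₂) = M w + t • M y₂ := by
        simp only [M, Submodule.coe_add, Submodule.coe_smul, Matrix.mul_add, Matrix.add_mul,
          Matrix.mul_smul, Matrix.smul_mul, smul_sub]
        abel
      have h11 : w + t • y₂ = 0 := by
        apply hq
        change (M (w + t • y₂) * M (w + t • y₂)).trace = 0
        rw [h10, Matrix.mul_add, Matrix.add_mul, Matrix.add_mul, Matrix.smul_mul, Matrix.mul_smul,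
          Matrix.smul_mul, Matrix.mul_smul, Matrix.trace_add, Matrix.trace_add, Matrix.trace_add,
          Matrix.trace_smul, Matrix.trace_smul, Matrix.trace_smul, Matrix.trace_smul,
          Matrix.trace_mul_comm (M y₂) (M w)]
        simp only [smul_eq_mul]
        have h12 : t * (M y₂ * M y₂).trace = -(M w * M y₂).trace + δ := by
          rw [ht, div_mul_cancel₀ _ hγ]
        have h13 : (M y₂ * M y₂).trace * ((M w * M w).trace + t * (M w * M y₂).trace +
            (t * (M w * M y₂).trace + t * (t * (M y₂ * M y₂).trace))) = 0 := by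
          have h14 : (M y₂ * M y₂).trace * ((M w * M w).trace + t * (M w * M y₂).trace +
            (t * (M w * M y₂).trace + t * (t * (M y₂ * M y₂).trace))) =
            (M y₂ * M y₂).trace * (M w * M w).trace +
              2 * (t * (M y₂ * M y₂).trace) * (M w * M y₂).trace +
                (t * (M y₂ * M y₂).trace) ^ 2 := by ring
          rw [h14, h12]
          linear_combination hδ
        have h15 := (mul_eq_zero.1 h13).resolve_left hγ
        linear_combination h15
      apply Subtype.ext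
      have h16 : w.1 + t • y₂.1 = 0 := congrArg Subtype.val h11
      rw [Submodule.coe_smul, neg_smul]
      exact (eq_neg_of_add_eq_zero_left h16).symm

end BD292

open BD292

theorem st_BD2 (hTRC : ST_TRC) (hSPB : ST_SPB) : ST_BD2 := by
  intro K _ _ _ n ε ψ s a ha hs h1 h2
  obtain ⟨x, hx, hmax⟩ := exists_max s a
  have hk := ker_le hTRC ha hs h2 hx hmax
  have hm := mid_le hSPB ha hs h1
  have h0 := deg_zero_le ha hs
  have hr : Module.finrank K (LinearMap.range (adm s a x)) ≤ Module.finrank K (gr s 0 a) := by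
    refine Submodule.finrank_mono ?_
    rintro _ ⟨y, rfl⟩
    exact ⟨ha.brk x hx.1 _ y.2.1, hx.2.brk y.2.2 (by norm_num)⟩
  have h3 := LinearMap.finrank_range_add_finrank_ker (adm s a x)
  refine hm.trans (Nat.mul_le_mul_left _ ?_)
  omega

end MT
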