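import Pool.Agent.Helper5.WD.Stmts

/-! Row GRW of the sheet `Pool.Agent.Helper5.WD.Stmts` (from CNT): Rosenfeld's induction. -/

set_option autoImplicit false

open Finset Pool.Agent.Helper8.UN Pool.Agent.Helper5.FV

namespace Pool.Agent.Helper5.WD

namespace GRW92

lemma restr_CC {n k : ℕ} (E : Finset (Finset (Fin n))) {W' U : Finset (Fin n)} (hU : U ⊆ W')
    {f : Fin n → ℕ} (hf : f ∈ CC E W' k) : (fun v => if v ∈ U then f v else 0) ∈ CC E U k := by
  classical
  unfold CC at hf ⊢
  rw [mem_filter, Fintype.mem_piFinset] at hf ⊢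
  obtain ⟨h1, h2⟩ := hf
  refine ⟨fun v => ?_, ?_⟩
  · by_cases hv : v ∈ U
    · have := h1 v
      rw [if_pos (hU hv)] at this
      simpa [hv] using this
    · simp [hv]
  · intro e he heU
    obtain ⟨u, hu, v, hv, huv⟩ := h2 e he (heU.trans hU)
    refine ⟨u, hu, v, hv, ?_⟩
    simpa [heU hu, heU hv] using huv

lemma zero_CC {n k : ℕ} (E : Finset (Finset (Fin n))) {W' : Finset (Fin n)}
    {f : Fin n → ℕ} (hf : f ∈ CC E W' k) {v : Fin n} (hv : v ∉ W') : f v = 0 := by
  classical
  unfold CC at hf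
  rw [mem_filter, Fintype.mem_piFinset] at hf
  have := hf.1 v
  rw [if_neg hv, mem_singleton] at this
  exact this

open scoped Classical in
lemma count_CC {n k : ℕ} (E : Finset (Finset (Fin n))) (W' T : Finset (Fin n)) (a : Fin n)
    (hT : T ⊆ W') (ha : a ∈ T) :
    ((CC E W' k).filter (fun f => ∀ u ∈ T, ∀ v ∈ T, f u = f v)).card ≤
      (CC E (W' \ T.erase a) k).card := by
  apply Finset.card_le_card_of_injOn (fun f v => if v ∈ W' \ T.erase a then f v else 0)
  · intro f hf
    rw [mem_coe, mem_filter] at hf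
    exact restr_CC E sdiff_subset hf.1
  · intro f hf g hg hfg
    rw [mem_coe, mem_filter] at hf hg
    have haU : a ∈ W' \ T.erase a := mem_sdiff.2 ⟨hT ha, notMem_erase a T⟩
    have h1 : ∀ v, v ∈ W' \ T.erase a → f v = g v := by
      intro v hv
      have := congrFun hfg v
      simpa only [if_pos hv] using this
    funext v
    by_cases hvW : v ∈ W'
    · by_cases hvT : v ∈ T.erase a
      · have hvT' := mem_of_mem_erase hvT
        rw [hf.2 v hvT' a ha, hg.2 v hvT' a ha, h1 a haU]
      · exact h1 v (mem_sdiff.2 ⟨hvW, hvT⟩)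
    · rw [zero_CC E hf.1 hvW, zero_CC E hg.1 hvW]

lemma mem_SS {n k : ℕ} (E : Finset (Finset (Fin n))) (W : Finset (Fin n)) (f : Fin n → ℕ) :
    f ∈ SS E W k ↔ f ∈ CC E W k ∧ ∀ i ∈ Finset.Icc 1 k, ∃ v ∈ W, f v = i := by
  unfold SS
  exact @Finset.mem_filter _ _ (fun a => Classical.propDecidable _) _ _

open scoped Classical in
lemma count_SS {n k : ℕ} (E : Finset (Finset (Fin n))) (W' T : Finset (Fin n)) (a : Fin n)
    (hT : T ⊆ W') (ha : a ∈ T) :
    ((SS E W' k).filter (fun f => ∀ u ∈ T, ∀ v ∈ T, f u = f v)).card ≤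
      (SS E (W' \ T.erase a) k).card := by
  have haU : a ∈ W' \ T.erase a := mem_sdiff.2 ⟨hT ha, notMem_erase a T⟩
  apply Finset.card_le_card_of_injOn (fun f v => if v ∈ W' \ T.erase a then f v else 0)
  · intro f hf
    rw [mem_coe, mem_filter] at hf
    obtain ⟨hf1, hf2⟩ := hf
    rw [mem_SS] at hf1
    rw [mem_coe, mem_SS]
    refine ⟨restr_CC E sdiff_subset hf1.1, fun i hi => ?_⟩
    obtain ⟨v, hv, hvi⟩ := hf1.2 i hi
    by_cases hvT : v ∈ T.erase a
    · refine ⟨a, haU, ?_⟩
      show (if a ∈ W' \ T.erase a then f a else 0) = i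
      rw [if_pos haU, ← hvi]
      exact hf2 a ha v (mem_of_mem_erase hvT)
    · have hvU : v ∈ W' \ T.erase a := mem_sdiff.2 ⟨hv, hvT⟩
      refine ⟨v, hvU, ?_⟩
      show (if v ∈ W' \ T.erase a then f v else 0) = i
      rw [if_pos hvU, hvi]
  · intro f hf g hg hfg
    rw [mem_coe, mem_filter] at hf hg
    have hf1 : f ∈ CC E W' k := ((mem_SS E W' f).1 hf.1).1
    have hg1 : g ∈ CC E W' k := ((mem_SS E W' g).1 hg.1).1
    have h1 : ∀ v, v ∈ W' \ T.erase a → f v = g v := by
      intro v hv
      have := congrFun hfg v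
      simpa only [if_pos hv] using this
    funext v
    by_cases hvW : v ∈ W'
    · by_cases hvT : v ∈ T.erase a
      · have hvT' := mem_of_mem_erase hvT
        rw [hf.2 v hvT' a ha, hg.2 v hvT' a ha, h1 a haU]
      · exact h1 v (mem_sdiff.2 ⟨hvW, hvT⟩)
    · rw [zero_CC E hf1 hvW, zero_CC E hg1 hvW]

/-- removing a set, one vertex at a time -/
lemma chain {n : ℕ} (F : Finset (Fin n) → ℕ) (κ m : ℕ)
    (h : ∀ W : Finset (Fin n), W.card ≤ m → ∀ y ∈ W, κ * F (W.erase y) ≤ F W)
    (W S : Finset (Fin n)) (hW : W.card ≤ m) (hS : S ⊆ W) :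
    κ ^ S.card * F (W \ S) ≤ F W := by
  classical
  induction S using Finset.induction_on with
  | empty => simp
  | insert a S ha ih =>
    have hS' : S ⊆ W := (subset_insert a S).trans hS
    have haW : a ∈ W \ S := mem_sdiff.2 ⟨hS (mem_insert_self a S), ha⟩
    have e1 : W \ insert a S = (W \ S).erase a := by
      ext v
      simp only [mem_sdiff, mem_insert, mem_erase]
      tauto
    rw [card_insert_of_notMem ha, pow_succ, mul_assoc, e1]
    calc κ ^ S.card * (κ * F ((W \ S).erase a)) ≤ κ ^ S.card * F (W \ S) :=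
          Nat.mul_le_mul_left _ (h _ ((card_le_card sdiff_subset).trans hW) a haW)
      _ ≤ F W := ih hS'

/-- the colour of a set -/
noncomputable def col {n : ℕ} (f : Fin n → ℕ) (T : Finset (Fin n)) : ℕ :=
  if h : T.Nonempty then f h.choose else 0

lemma col_eq {n : ℕ} {f : Fin n → ℕ} {T : Finset (Fin n)} (hT : T.Nonempty) {i : ℕ}
    (h : ∀ u ∈ T, f u = i) : col f T = i := by
  unfold col
  rw [dif_pos hT]
  exact h _ hT.choose_spec

open scoped Classical in
lemma bk_le {n k r : ℕ} (E : Finset (Finset (Fin n))) (W : Finset (Fin n)) (y : Fin n)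
    (f : Fin n → ℕ) (h2 : Two E) (hr : 4 ≤ r) :
    bk E W k f y ≤ (nb E W y).card +
      ((E.filter (fun e => y ∈ e ∧ 3 ≤ e.card ∧ e.card < r ∧ e ⊆ W)).filter
        (fun e => ∀ u ∈ e.erase y, ∀ v ∈ e.erase y, f u = f v)).card +
      (((W.erase y).powersetCard (r - 1)).filter
        (fun S => ∀ u ∈ S, ∀ v ∈ S, f u = f v)).card := by
  unfold bk
  have hsub : (Finset.Icc 1 k).filter (fun i => Blk E W f y i) ⊆
      ((nb E W y).image f ∪
      ((E.filter (fun e => y ∈ e ∧ 3 ≤ e.card ∧ e.card < r ∧ e ⊆ W)).filter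
        (fun e => ∀ u ∈ e.erase y, ∀ v ∈ e.erase y, f u = f v)).image
          (fun e => col f (e.erase y))) ∪
      (((W.erase y).powersetCard (r - 1)).filter
        (fun S => ∀ u ∈ S, ∀ v ∈ S, f u = f v)).image (fun S => col f S) := by
    intro i hi
    rw [mem_filter] at hi
    obtain ⟨-, e, he, heW, hye, hcol⟩ := hi
    have hcol' : ∀ u ∈ e.erase y, f u = i := fun u hu =>
      hcol u (mem_of_mem_erase hu) (ne_of_mem_erase hu)
    have hcard : (e.erase y).card = e.card - 1 := card_erase_of_mem hye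
    have he2 := h2 e he
    have hne : (e.erase y).Nonempty := card_pos.1 (by omega)
    rw [mem_union, mem_union]
    by_cases h3 : e.card < 3
    · left; left
      have hc1 : (e.erase y).card = 1 := by omega
      obtain ⟨z, hz⟩ := card_eq_one.1 hc1
      have hze : z ∈ e.erase y := by rw [hz]; exact mem_singleton_self z
      rw [mem_image]
      refine ⟨z, ?_, hcol' z hze⟩
      unfold nb
      rw [mem_filter]
      refine ⟨heW (mem_of_mem_erase hze), ne_of_mem_erase hze, ?_⟩
      have : ({y, z} : Finset (Fin n)) = e := by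
        rw [← hz, insert_erase hye]
      rw [this]
      exact he
    · by_cases h4 : e.card < r
      · left; right
        rw [mem_image]
        refine ⟨e, ?_, col_eq hne hcol'⟩
        rw [mem_filter, mem_filter]
        exact ⟨⟨he, hye, by omega, h4, heW⟩, fun u hu v hv => by rw [hcol' u hu, hcol' v hv]⟩
      · right
        obtain ⟨S, hS1, hS2⟩ := exists_subset_card_eq (show r - 1 ≤ (e.erase y).card by omega)
        rw [mem_image]
        refine ⟨S, ?_, col_eq (card_pos.1 (by omega)) fun u hu => hcol' u (hS1 hu)⟩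
        rw [mem_filter, mem_powersetCard]
        exact ⟨⟨hS1.trans (erase_subset_erase y heW), hS2⟩,
          fun u hu v hv => by rw [hcol' u (hS1 hu), hcol' v (hS1 hv)]⟩
  refine (card_le_card hsub).trans ((card_union_le _ _).trans ?_)
  exact add_le_add ((card_union_le _ _).trans (add_le_add card_image_le card_image_le))
    card_image_le

open scoped Classical in
lemma main {n k D0 r : ℕ} (E : Finset (Finset (Fin n)))
    (F : Finset (Fin n) → Finset (Fin n → ℕ)) (h2 : Two E) (hr : 4 ≤ r) (hk : D0 + 1 < k)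
    (hNB : NB E D0)
    (hw : ∀ y, ws E r ((k : ℝ) - (D0 + 1)) y +
      n.choose (r - 1) / ((k : ℝ) - (D0 + 1)) ^ (r - 2) ≤ 1)
    (hF1 : ∀ (W' T : Finset (Fin n)) (a : Fin n), T ⊆ W' → a ∈ T →
      ((F W').filter (fun f => ∀ u ∈ T, ∀ v ∈ T, f u = f v)).card ≤ (F (W' \ T.erase a)).card)
    (hF2 : ∀ (W : Finset (Fin n)) (v : Fin n), v ∈ W →
      ∑ f ∈ F (W.erase v), (k - bk E W k f v) ≤ (F W).card) :
    ∀ (m : ℕ) (W : Finset (Fin n)), W.card ≤ m → ∀ y ∈ W,
      (k - (D0 + 1)) * (F (W.erase y)).card ≤ (F W).card := by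
  intro m
  induction m with
  | zero =>
    intro W hW y hy
    have := card_pos.2 ⟨y, hy⟩
    omega
  | succ m ih =>
    intro W hW y hy
    set κ : ℕ := k - (D0 + 1) with hκ
    have hκR : (κ : ℝ) = (k : ℝ) - (D0 + 1) := by
      rw [hκ, Nat.cast_sub hk.le]
      push_cast
      ring
    have hκpos : (0 : ℝ) < κ := by
      have : 0 < κ := by omega
      exact_mod_cast this
    have hW' : (W.erase y).card ≤ m := by
      rw [card_erase_of_mem hy]
      omega
    set N : ℝ := ((F (W.erase y)).card : ℝ) with hN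
    have hN0 : 0 ≤ N := by positivity
    -- colourings constant on a set
    have hT : ∀ T ⊆ W.erase y, ∀ s : ℕ, T.card = s + 1 →
        (((F (W.erase y)).filter (fun f => ∀ u ∈ T, ∀ v ∈ T, f u = f v)).card : ℝ) ≤
          N * (1 / (κ : ℝ)) ^ s := by
      intro T hT s hs
      obtain ⟨a, ha⟩ : T.Nonempty := card_pos.1 (by omega)
      have h3 := hF1 _ T a hT ha
      have h4 := chain (fun W => (F W).card) κ m ih (W.erase y) (T.erase a) hW'
        ((erase_subset a T).trans hT)
      rw [card_erase_of_mem ha, hs, Nat.add_sub_cancel] at h4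
      have h5 : ((κ : ℝ) ^ s) * ((F (W.erase y \ T.erase a)).card : ℝ) ≤ N := by
        rw [hN]
        exact_mod_cast h4
      have h6 : (((F (W.erase y)).filter (fun f => ∀ u ∈ T, ∀ v ∈ T, f u = f v)).card : ℝ) ≤
          ((F (W.erase y \ T.erase a)).card : ℝ) := by exact_mod_cast h3
      refine h6.trans ?_
      rw [one_div, inv_pow, ← div_eq_mul_inv, le_div_iff₀ (pow_pos hκpos s), mul_comm]
      exact h5
    -- the sum of the numbers of blocked colours
    have hsum : ∑ f ∈ F (W.erase y), (bk E W k f y : ℝ) ≤ N * (D0 + 1) := by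
      have hb : ∀ f ∈ F (W.erase y), (bk E W k f y : ℝ) ≤ D0 +
          ((E.filter (fun e => y ∈ e ∧ 3 ≤ e.card ∧ e.card < r ∧ e ⊆ W)).filter
            (fun e => ∀ u ∈ e.erase y, ∀ v ∈ e.erase y, f u = f v)).card +
          (((W.erase y).powersetCard (r - 1)).filter
            (fun S => ∀ u ∈ S, ∀ v ∈ S, f u = f v)).card := by
        intro f _
        have h3 := bk_le (k := k) E W y f h2 hr
        have h4 := hNB W y
        have h5 : bk E W k f y ≤ D0 +
          ((E.filter (fun e => y ∈ e ∧ 3 ≤ e.card ∧ e.card < r ∧ e ⊆ W)).filter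
            (fun e => ∀ u ∈ e.erase y, ∀ v ∈ e.erase y, f u = f v)).card +
          (((W.erase y).powersetCard (r - 1)).filter
            (fun S => ∀ u ∈ S, ∀ v ∈ S, f u = f v)).card := by omega
        exact_mod_cast h5
      refine (sum_le_sum hb).trans ?_
      rw [sum_add_distrib, sum_add_distrib, sum_const, nsmul_eq_mul]
      have s1 : ∑ f ∈ F (W.erase y),
          (((E.filter (fun e => y ∈ e ∧ 3 ≤ e.card ∧ e.card < r ∧ e ⊆ W)).filter
            (fun e => ∀ u ∈ e.erase y, ∀ v ∈ e.erase y, f u = f v)).card : ℝ) ≤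
          N * ws E r κ y := by
        have e1 : ∑ f ∈ F (W.erase y),
            (((E.filter (fun e => y ∈ e ∧ 3 ≤ e.card ∧ e.card < r ∧ e ⊆ W)).filter
              (fun e => ∀ u ∈ e.erase y, ∀ v ∈ e.erase y, f u = f v)).card : ℝ) =
            ∑ e ∈ E.filter (fun e => y ∈ e ∧ 3 ≤ e.card ∧ e.card < r ∧ e ⊆ W),
              (((F (W.erase y)).filter
                (fun f => ∀ u ∈ e.erase y, ∀ v ∈ e.erase y, f u = f v)).card : ℝ) := by
          simp only [card_filter, Nat.cast_sum]
          exact sum_comm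
        rw [e1]
        have e2 : ∀ e ∈ E.filter (fun e => y ∈ e ∧ 3 ≤ e.card ∧ e.card < r ∧ e ⊆ W),
            (((F (W.erase y)).filter
                (fun f => ∀ u ∈ e.erase y, ∀ v ∈ e.erase y, f u = f v)).card : ℝ) ≤
            N * (1 / (κ : ℝ)) ^ (e.card - 2) := by
          intro e he
          rw [mem_filter] at he
          obtain ⟨_, hye, h3, _, heW⟩ := he
          refine hT _ (erase_subset_erase y heW) _ ?_
          rw [card_erase_of_mem hye]
          omega
        refine (sum_le_sum e2).trans ?_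
        rw [← mul_sum]
        refine mul_le_mul_of_nonneg_left ?_ hN0
        unfold ws
        refine sum_le_sum_of_subset_of_nonneg ?_ fun e _ _ => by positivity
        intro e he
        rw [mem_filter] at he ⊢
        exact ⟨he.1, he.2.1, he.2.2.1, he.2.2.2.1⟩
      have s2 : ∑ f ∈ F (W.erase y),
          ((((W.erase y).powersetCard (r - 1)).filter
            (fun S => ∀ u ∈ S, ∀ v ∈ S, f u = f v)).card : ℝ) ≤
          N * (n.choose (r - 1) / (κ : ℝ) ^ (r - 2)) := by
        have e1 : ∑ f ∈ F (W.erase y),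
            ((((W.erase y).powersetCard (r - 1)).filter
              (fun S => ∀ u ∈ S, ∀ v ∈ S, f u = f v)).card : ℝ) =
            ∑ S ∈ (W.erase y).powersetCard (r - 1),
              (((F (W.erase y)).filter (fun f => ∀ u ∈ S, ∀ v ∈ S, f u = f v)).card : ℝ) := by
          simp only [card_filter, Nat.cast_sum]
          exact sum_comm
        rw [e1]
        have e2 : ∀ S ∈ (W.erase y).powersetCard (r - 1),
            (((F (W.erase y)).filter (fun f => ∀ u ∈ S, ∀ v ∈ S, f u = f v)).card : ℝ) ≤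
            N * (1 / (κ : ℝ)) ^ (r - 2) := by
          intro S hS
          rw [mem_powersetCard] at hS
          exact hT S hS.1 _ (by omega)
        refine (sum_le_sum e2).trans ?_
        rw [sum_const, nsmul_eq_mul, card_powersetCard]
        have e3 : (((W.erase y).card.choose (r - 1) : ℕ) : ℝ) ≤ (n.choose (r - 1) : ℕ) := by
          have : (W.erase y).card ≤ n := (card_le_univ _).trans (by rw [Fintype.card_fin])
          exact_mod_cast Nat.choose_le_choose (r - 1) this
        have e4 : N * ((n.choose (r - 1) : ℝ) / (κ : ℝ) ^ (r - 2)) =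
            (n.choose (r - 1) : ℝ) * (N * (1 / (κ : ℝ)) ^ (r - 2)) := by
          rw [one_div, inv_pow]
          ring
        rw [e4]
        exact mul_le_mul_of_nonneg_right e3 (by positivity)
      have h7 := hw y
      rw [← hκR] at h7
      have h8 : N * (ws E r κ y + n.choose (r - 1) / (κ : ℝ) ^ (r - 2)) ≤ N * 1 :=
        mul_le_mul_of_nonneg_left h7 hN0
      rw [← hN]
      linarith
    have hlow : (k : ℝ) * N - ∑ f ∈ F (W.erase y), (bk E W k f y : ℝ) ≤ (F W).card := by
      have h3 : ((∑ f ∈ F (W.erase y), (k - bk E W k f y) : ℕ) : ℝ) ≤ ((F W).card : ℝ) := by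
        exact_mod_cast hF2 W y hy
      refine le_trans ?_ h3
      rw [Nat.cast_sum]
      have h4 : (k : ℝ) * N = ∑ f ∈ F (W.erase y), (k : ℝ) := by
        rw [sum_const, nsmul_eq_mul, mul_comm]
      rw [h4, ← sum_sub_distrib]
      refine sum_le_sum fun f _ => ?_
      have : (k : ℝ) ≤ ((k - bk E W k f y : ℕ) : ℝ) + (bk E W k f y : ℝ) := by
        have : k ≤ (k - bk E W k f y) + bk E W k f y := by omega
        exact_mod_cast this
      linarith
    have hfin : (κ : ℝ) * N ≤ (F W).card := by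
      rw [hκR]
      nlinarith
    rw [hN] at hfin
    exact_mod_cast hfin

end GRW92

open GRW92 in
theorem st_GRW (hCNT : ST_CNT) : ST_GRW := by
  classical
  intro n D0 r k0 E h2 hr hk0 hNB hw k hk
  have hk' : D0 + 1 < k := lt_of_lt_of_le hk0 hk
  have hκ0 : (0 : ℝ) < (k0 : ℝ) - (D0 + 1) := by
    have : ((D0 + 1 : ℕ) : ℝ) < k0 := by exact_mod_cast hk0
    push_cast at this
    linarith
  have hκκ : (k0 : ℝ) - (D0 + 1) ≤ (k : ℝ) - (D0 + 1) := by
    have : (k0 : ℝ) ≤ k := by exact_mod_cast hk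
    linarith
  have hw' : ∀ y, ws E r ((k : ℝ) - (D0 + 1)) y +
      n.choose (r - 1) / ((k : ℝ) - (D0 + 1)) ^ (r - 2) ≤ 1 := by
    intro y
    refine le_trans (add_le_add ?_ ?_) (hw y)
    · unfold ws
      refine sum_le_sum fun e _ => ?_
      exact pow_le_pow_left₀ (by have := hκ0.trans_le hκκ; positivity)
        (one_div_le_one_div_of_le hκ0 hκκ) _
    · exact div_le_div_of_nonneg_left (by positivity) (pow_pos hκ0 _)
        (pow_le_pow_left₀ hκ0.le hκκ _)
  intro W y hy
  refine ⟨?_, ?_⟩
  · exact main E (fun W => CC E W k) h2 hr hk' hNB hw' (fun W' T a h3 h4 => count_CC E W' T a h3 h4)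
      (fun W v hv => (hCNT n k E W v h2 hv).1.ge) W.card W le_rfl y hy
  · exact main E (fun W => SS E W k) h2 hr hk' hNB hw' (fun W' T a h3 h4 => count_SS E W' T a h3 h4)
      (fun W v hv => (hCNT n k E W v h2 hv).2) W.card W le_rfl y hy

end Pool.Agent.Helper5.WD
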