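import Pool.Agent.Helper40.WD.Stmts

/-! Row NOT of the sheet `Pool.Agent.Helper40.WD.Stmts`. -/

set_option autoImplicit false

namespace Pool.Agent.Helper92.WD

open Filter Topology Pool.Agent.Helper40.WD

lemma not_eval_tendsto (D : Dav) (u : ℕ → Ed D) (v : Ed D) (h : Tendsto u atTop (𝓝 v)) (p : Gi)
    (t : Set.Icc (0 : ℝ) 1) : Tendsto (fun n => (u n : LC) p t) atTop (𝓝 ((v : LC) p t)) := by
  rw [tendsto_iff_norm_sub_tendsto_zero] at h ⊢
  refine squeeze_zero (fun n => norm_nonneg _) (fun n => ?_) h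
  have h1 : ‖((u n - v : Ed D) : LC) p‖ ≤ ‖((u n - v : Ed D) : LC)‖ :=
    lp.norm_apply_le_norm ENNReal.top_ne_zero _ p
  have h2 := ContinuousMap.norm_coe_le_norm (((u n - v : Ed D) : LC) p) t
  exact h2.trans h1

lemma not_bet_tendsto (D : Dav) (v : Evec D) (k : ℕ) (R : ℕ → Wd D →L[ℝ] Ed D)
    (J : Wd D →L[ℝ] Ed D) (h : ∀ w, Tendsto (fun n => R n w) atTop (𝓝 (J w))) :
    Tendsto (fun n => bet D v k (R n)) atTop (𝓝 (bet D v k J)) := by
  unfold bet val1
  refine Tendsto.const_mul _ (tendsto_finsetSum _ fun j _ => Tendsto.const_mul _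
    (tendsto_finsetSum _ fun g _ => Tendsto.const_mul _ (Tendsto.const_mul _ ?_)))
  exact not_eval_tendsto D _ _ (h _) _ _

lemma not_bet_step (h3 : ST_TLS) (D : Dav) (v : Evec D) (R : Wd D →L[ℝ] Ed D) (M : ℝ)
    (hM : ‖R‖ ≤ M) (K i : ℕ) :
    |bet D v K R| ≤ |bet D v (K + i) R| +
      1000 * M * ∑ l ∈ Finset.range i, Real.exp (-(Real.log 3 / 8)) ^ (K + l) := by
  induction i with
  | zero => simp
  | succ i ih =>
    have h := h3 D v R (K + i)
    have e1 : Real.exp (-(Real.log 3 / 8 * ((K + i : ℕ) : ℝ))) =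
        Real.exp (-(Real.log 3 / 8)) ^ (K + i) := by
      rw [← Real.exp_nat_mul]
      congr 1
      ring
    rw [e1] at h
    have hq : 0 < Real.exp (-(Real.log 3 / 8)) ^ (K + i) := pow_pos (Real.exp_pos _) _
    have h4 : 1000 * Real.exp (-(Real.log 3 / 8)) ^ (K + i) * ‖R‖ ≤
        1000 * M * Real.exp (-(Real.log 3 / 8)) ^ (K + i) := by
      calc 1000 * Real.exp (-(Real.log 3 / 8)) ^ (K + i) * ‖R‖
          ≤ 1000 * Real.exp (-(Real.log 3 / 8)) ^ (K + i) * M :=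
            mul_le_mul_of_nonneg_left hM (by positivity)
        _ = _ := by ring
    have h5 := abs_sub_abs_le_abs_sub (bet D v (K + i) R) (bet D v (K + i + 1) R)
    rw [abs_sub_comm (bet D v (K + i) R)] at h5
    rw [Finset.sum_range_succ, mul_add, ← add_assoc K i 1]
    linarith

theorem st_NOT (h1 : ST_THX) (h2 : ST_CLO) (h3 : ST_TLS) (h4 : ST_BJ) (h5 : ST_TZ) :
    ST_NOT := by
  intro D v J f hJ hf
  rintro ⟨F, hF, hlim⟩
  have h0 : (0 : VV) ∈ XX D := by
    have := (h1 D 0 (by simp)).1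
    rwa [map_zero] at this
  choose R hR1 hR2 using fun n => h5 D v (F n) (hF n).1 (hF n).2
  have hfw : ∀ (w : Wd D) (_ : ‖w‖ ≤ 1) (h : thI D w ∈ XX D), f ⟨thI D w, h⟩ = J w := by
    intro w hw h
    refine hf ⟨thI D w, h⟩ w ⟨hw, fun ε hε => ⟨0, fun n _ k hk g => ?_⟩⟩
    have e1 : (thI D w : VV) n k g = (w : LI) ⟨k, g⟩ := if_pos hk
    show |(thI D w : VV) n k g - (w : LI) ⟨k, g⟩| ≤ ε
    rw [e1, sub_self, abs_zero]
    exact hε.le
  have hf0 : f ⟨0, h0⟩ = 0 := by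
    have h6 : thI D 0 = 0 := map_zero _
    have h7 := hfw 0 (by simp) (by rw [h6]; exact h0)
    have h8 : J 0 = 0 := map_zero J
    exact (congrArg f (Subtype.ext h6.symm)).trans (h7.trans h8)
  have hc1 : ∀ w : Wd D, ‖w‖ ≤ 1 → Tendsto (fun n => R n w) atTop (𝓝 (J w)) := by
    intro w hw
    have hx := (h1 D w hw).1
    have e1 := (hlim ⟨thI D w, hx⟩).sub (hlim ⟨0, h0⟩)
    rw [hfw w hw hx, hf0, sub_zero] at e1
    refine e1.congr fun n => ?_
    exact (hR1 n w hx h0 hw).symm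
  have hc2 : ∀ w : Wd D, Tendsto (fun n => R n w) atTop (𝓝 (J w)) := by
    intro w
    have hc : 0 < ‖w‖ + 1 := by positivity
    have hw : ‖(‖w‖ + 1)⁻¹ • w‖ ≤ 1 := by
      rw [norm_smul, norm_inv, Real.norm_of_nonneg hc.le, inv_mul_le_iff₀ hc]
      linarith
    have e1 := (hc1 _ hw).const_smul (‖w‖ + 1)
    simp only [map_smul, smul_smul, mul_inv_cancel₀ hc.ne', one_smul] at e1
    exact e1
  have : CompleteSpace (Wd D) := (h2 D).1.completeSpace_coe
  obtain ⟨M, hM⟩ := banach_steinhaus (g := R) (fun w => by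
    obtain ⟨C, hC⟩ := (hc2 w).norm.bddAbove_range
    exact ⟨C, fun i => hC ⟨i, rfl⟩⟩)
  have hM0 : 0 ≤ M := (ContinuousLinearMap.opNorm_nonneg (R 0)).trans (hM 0)
  set q : ℝ := Real.exp (-(Real.log 3 / 8)) with hq
  have hq0 : 0 < q := Real.exp_pos _
  have hq1 : q < 1 := by
    rw [hq, Real.exp_lt_one_iff]
    have := Real.log_pos (show (1 : ℝ) < 3 by norm_num)
    linarith
  have key : ∀ K n, |bet D v K (R n)| ≤ 1000 * M * (q ^ K * (1 - q)⁻¹) := by
    intro K n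
    refine le_of_forall_pos_le_add fun ε hε => ?_
    obtain ⟨K', hK'⟩ := hR2 n ε hε
    have h7 := not_bet_step h3 D v (R n) M (hM n) K K'
    have h8 := hK' (K + K') (by omega)
    have h9 : ∑ l ∈ Finset.range K', q ^ (K + l) ≤ q ^ K * (1 - q)⁻¹ := by
      simp_rw [pow_add]
      rw [← Finset.mul_sum]
      refine mul_le_mul_of_nonneg_left ?_ (by positivity)
      rw [← tsum_geometric_of_lt_one hq0.le hq1]
      exact (summable_geometric_of_lt_one hq0.le hq1).sum_le_tsum _ (fun _ _ => by positivity)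
    rw [← hq] at h7
    have h10 := mul_le_mul_of_nonneg_left h9 (show 0 ≤ 1000 * M by positivity)
    linarith
  have key2 : ∀ K : ℕ, 1 ≤ 1000 * M * (q ^ K * (1 - q)⁻¹) := by
    intro K
    have e1 := (not_bet_tendsto D v K R J hc2).abs
    rw [h4 D v J hJ K, abs_one] at e1
    exact le_of_tendsto' e1 (key K)
  have e2 : Tendsto (fun K : ℕ => 1000 * M * (q ^ K * (1 - q)⁻¹)) atTop (𝓝 0) := by
    have := ((tendsto_pow_atTop_nhds_zero_of_lt_one hq0.le hq1).mul_const ((1 - q)⁻¹)).const_mul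
      (1000 * M)
    simpa using this
  have := ge_of_tendsto' e2 key2
  linarith

end Pool.Agent.Helper92.WD
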